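import Pool.Agent.Zk1.WM.Brg

/-!
# Euler products with local polynomials are members of the class of L-functions
-/

set_option autoImplicit false

open Complex Filter Topology Set Polynomial
open scoped ComplexConjugate

namespace Pool.Agent.Zk1.WM

open Pool.Agent.W355.UN Pool.Agent.TH839.NA
open Pool.Agent.Y23.G (LFun)
open ArithmeticFunction (vonMangoldt)

lemma p0 (p : Nat.Primes) : ((p : ℕ) : ℂ) ≠ 0 := by exact_mod_cast p.2.ne_zero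

/-- the reciprocal roots of a polynomial with constant term one -/
theorem roots (b : ℕ) : ∀ P : ℂ[X], P.coeff 0 = 1 → P.natDegree ≤ b →
    ∃ α : Fin b → ℂ, (∀ z : ℂ, P.eval z = ∏ j, (1 - α j * z)) ∧
      ∀ j, α j = 0 ∨ (α j ≠ 0 ∧ P.eval (α j)⁻¹ = 0) := by
  induction b with
  | zero =>
    intro P h0 hd
    refine ⟨fun j => j.elim0, fun z => ?_, fun j => j.elim0⟩
    rw [Polynomial.eq_C_of_natDegree_le_zero hd, h0]
    simp
  | succ b ih =>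
    intro P h0 hd
    rcases Nat.eq_zero_or_pos P.natDegree with h | h
    · obtain ⟨α, h1, h2⟩ := ih P h0 (by omega)
      refine ⟨Fin.cons 0 α, fun z => ?_, fun j => ?_⟩
      · rw [Fin.prod_univ_succ]
        simp only [Fin.cons_zero, Fin.cons_succ, zero_mul, sub_zero, one_mul]
        exact h1 z
      · refine Fin.cases ?_ (fun j => ?_) j
        · left; rfl
        · simp only [Fin.cons_succ]
          exact h2 j
    · have hdeg : P.degree ≠ 0 := by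
        intro h3
        rw [Polynomial.natDegree_eq_of_degree_eq_some h3] at h
        exact lt_irrefl _ h
      obtain ⟨z0, hz0⟩ := IsAlgClosed.exists_root P hdeg
      have hP : P ≠ 0 := by
        rintro rfl
        simp at h0
      have hz : z0 ≠ 0 := by
        rintro rfl
        rw [Polynomial.IsRoot.def, ← Polynomial.coeff_zero_eq_eval_zero, h0] at hz0
        exact one_ne_zero hz0
      obtain ⟨Q, hQ⟩ := Polynomial.dvd_iff_isRoot.2 hz0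
      have hQ0 : Q ≠ 0 := by
        rintro rfl
        rw [mul_zero] at hQ
        exact hP hQ
      have hdQ : P.natDegree = 1 + Q.natDegree := by
        rw [hQ, Polynomial.natDegree_mul (Polynomial.X_sub_C_ne_zero z0) hQ0,
          Polynomial.natDegree_X_sub_C]
      have hc0 : (Polynomial.C (-z0) * Q).coeff 0 = 1 := by
        rw [Polynomial.coeff_zero_eq_eval_zero] at h0 ⊢
        rw [hQ] at h0
        simpa using h0
      obtain ⟨α, h1, h2⟩ := ih (Polynomial.C (-z0) * Q) hc0 (by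
        refine (Polynomial.natDegree_C_mul_le _ _).trans ?_
        omega)
      refine ⟨Fin.cons z0⁻¹ α, fun z => ?_, fun j => ?_⟩
      · rw [Fin.prod_univ_succ]
        simp only [Fin.cons_zero, Fin.cons_succ]
        rw [← h1 z, hQ]
        simp only [eval_mul, eval_sub, eval_X, eval_C]
        field_simp
        ring
      · refine Fin.cases ?_ (fun j => ?_) j
        · right
          simp only [Fin.cons_zero, inv_inv]
          exact ⟨inv_ne_zero hz, hz0⟩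
        · simp only [Fin.cons_succ]
          rcases h2 j with h3 | ⟨h3, h4⟩
          · exact Or.inl h3
          · refine Or.inr ⟨h3, ?_⟩
            rw [hQ]
            simp only [eval_mul, eval_C] at h4 ⊢
            rw [(mul_eq_zero.1 h4).resolve_left (neg_ne_zero.2 hz), mul_zero]

lemma order_shift {Λ : ℂ → ℂ} {κ c : ℝ} (hκ : 0 < κ) (hc : 0 ≤ c)
    (h : ∃ A ρ : ℝ, ∀ s : ℂ, ‖Λ s‖ ≤ Real.exp (A * (1 + ‖s‖) ^ ρ)) :
    ∃ A ρ : ℝ, ∀ s : ℂ, ‖(κ : ℂ) * Λ (s + c)‖ ≤ Real.exp (A * (1 + ‖s‖) ^ ρ) := by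
  obtain ⟨A, ρ, hb⟩ := h
  refine ⟨|Real.log κ| + |A| * (1 + c) ^ |ρ|, |ρ|, fun s => ?_⟩
  rw [norm_mul, Complex.norm_real, Real.norm_eq_abs, abs_of_pos hκ]
  have h1 : 1 ≤ 1 + ‖s‖ := by linarith [norm_nonneg s]
  have h2 : 1 ≤ 1 + ‖s + c‖ := by linarith [norm_nonneg (s + c)]
  have h3 : 1 + ‖s + c‖ ≤ (1 + c) * (1 + ‖s‖) := by
    have h4 := norm_add_le s (c : ℂ)
    rw [Complex.norm_real, Real.norm_eq_abs, abs_of_nonneg hc] at h4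
    nlinarith [norm_nonneg s]
  have h4 : A * (1 + ‖s + c‖) ^ ρ ≤ |A| * ((1 + c) ^ |ρ| * (1 + ‖s‖) ^ |ρ|) := by
    have h5 : (1 + ‖s + c‖) ^ ρ ≤ (1 + ‖s + c‖) ^ |ρ| :=
      Real.rpow_le_rpow_of_exponent_le h2 (le_abs_self ρ)
    have h6 : (1 + ‖s + c‖) ^ |ρ| ≤ ((1 + c) * (1 + ‖s‖)) ^ |ρ| :=
      Real.rpow_le_rpow (by linarith) h3 (abs_nonneg ρ)
    rw [Real.mul_rpow (by linarith) (by linarith)] at h6
    have h7 : 0 ≤ (1 + ‖s + c‖) ^ ρ := Real.rpow_nonneg (by linarith) _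
    calc A * (1 + ‖s + c‖) ^ ρ ≤ |A| * (1 + ‖s + c‖) ^ ρ :=
          mul_le_mul_of_nonneg_right (le_abs_self A) h7
      _ ≤ _ := mul_le_mul_of_nonneg_left (h5.trans h6) (abs_nonneg A)
  have h5 : 1 ≤ (1 + ‖s‖) ^ |ρ| := Real.one_le_rpow h1 (abs_nonneg ρ)
  have h6 : Real.log κ ≤ |Real.log κ| * (1 + ‖s‖) ^ |ρ| := by
    have := le_abs_self (Real.log κ)
    have := abs_nonneg (Real.log κ)
    nlinarith
  calc κ * ‖Λ (s + c)‖ ≤ Real.exp (Real.log κ) * Real.exp (A * (1 + ‖s + c‖) ^ ρ) := by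
        rw [Real.exp_log hκ]
        exact mul_le_mul_of_nonneg_left (hb _) hκ.le
    _ = Real.exp (Real.log κ + A * (1 + ‖s + c‖) ^ ρ) := (Real.exp_add _ _).symm
    _ ≤ _ := by
        apply Real.exp_le_exp.2
        calc _ ≤ |Real.log κ| * (1 + ‖s‖) ^ |ρ| + |A| * ((1 + c) ^ |ρ| * (1 + ‖s‖) ^ |ρ|) :=
              add_le_add h6 h4
          _ = _ := by ring

/-- the normalised roots -/
theorem poly_roots {i D N : ℕ} {P : ℕ → ℂ[X]} (h0 : ∀ p : ℕ, p.Prime → (P p).coeff 0 = 1)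
    (hd : ∀ p : ℕ, p.Prime → (P p).natDegree ≤ D)
    (hr1 : ∀ p : ℕ, p.Prime → ∀ z : ℂ, (P p).eval z = 0 → (p : ℝ) ^ (-(((i : ℝ) + 1) / 2)) ≤ ‖z‖)
    (hr2 : ∀ p : ℕ, p.Prime → ¬ p ∣ N → ∀ z : ℂ, (P p).eval z = 0 →
      (p : ℝ) ^ (-((i : ℝ) / 2)) ≤ ‖z‖) :
    ∃ α : Nat.Primes → Fin D → ℂ, (∀ p j, ‖α p j‖ ≤ ((p : ℕ) : ℝ) ^ (1 / 2 : ℝ)) ∧
      (∀ p : Nat.Primes, ¬ (p : ℕ) ∣ N → ∀ j, ‖α p j‖ ≤ 1) ∧
      ∀ (p : Nat.Primes) (z : ℂ), (P p).eval (((p : ℕ) : ℂ) ^ (-((i : ℂ) / 2)) * z) =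
        ∏ j, (1 - α p j * z) := by
  have key : ∀ p : Nat.Primes, ∃ α : Fin D → ℂ, (∀ j, ‖α j‖ ≤ ((p : ℕ) : ℝ) ^ (1 / 2 : ℝ)) ∧
      (¬ (p : ℕ) ∣ N → ∀ j, ‖α j‖ ≤ 1) ∧
      ∀ z : ℂ, (P p).eval (((p : ℕ) : ℂ) ^ (-((i : ℂ) / 2)) * z) = ∏ j, (1 - α j * z) := by
    intro p
    have hp0 : (0 : ℝ) < ((p : ℕ) : ℝ) := by exact_mod_cast p.2.pos
    have e : (-((i : ℂ) / 2)).re = -((i : ℝ) / 2) := by
      rw [show (-((i : ℂ) / 2)) = ((-((i : ℝ) / 2) : ℝ) : ℂ) by push_cast; rfl, ofReal_re]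
    have hn : ‖((p : ℕ) : ℂ) ^ (-((i : ℂ) / 2))‖ = ((p : ℕ) : ℝ) ^ (-((i : ℝ) / 2)) := by
      rw [Complex.norm_natCast_cpow_of_pos p.2.pos, e]
    obtain ⟨α0, h1, h2⟩ := roots D (P p) (h0 p p.2) (hd p p.2)
    -- the bound for one root
    have hb : ∀ (ρ : ℝ) (_ : ∀ z : ℂ, (P p).eval z = 0 → ((p : ℕ) : ℝ) ^ (-ρ) ≤ ‖z‖) (j : Fin D),
        ‖α0 j * ((p : ℕ) : ℂ) ^ (-((i : ℂ) / 2))‖ ≤ ((p : ℕ) : ℝ) ^ (ρ - (i : ℝ) / 2) := by
      intro ρ hρ j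
      rcases h2 j with h3 | ⟨h3, h4⟩
      · rw [h3, zero_mul, norm_zero]
        exact Real.rpow_nonneg hp0.le _
      · have h5 := hρ _ h4
        rw [norm_inv, Real.rpow_neg hp0.le] at h5
        have h6 : ‖α0 j‖ ≤ ((p : ℕ) : ℝ) ^ ρ :=
          (inv_le_inv₀ (Real.rpow_pos_of_pos hp0 _) (norm_pos_iff.2 h3)).1 h5
        rw [norm_mul, hn]
        calc ‖α0 j‖ * ((p : ℕ) : ℝ) ^ (-((i : ℝ) / 2)) ≤
            ((p : ℕ) : ℝ) ^ ρ * ((p : ℕ) : ℝ) ^ (-((i : ℝ) / 2)) := by gcongr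
          _ = _ := by
              rw [← Real.rpow_add hp0]
              congr 1
    refine ⟨fun j => α0 j * ((p : ℕ) : ℂ) ^ (-((i : ℂ) / 2)), fun j => ?_, fun hpN j => ?_,
      fun z => ?_⟩
    · have h3 := hb (((i : ℝ) + 1) / 2) (hr1 p p.2) j
      rw [show ((i : ℝ) + 1) / 2 - (i : ℝ) / 2 = 1 / 2 by ring] at h3
      exact h3
    · have h3 := hb ((i : ℝ) / 2) (hr2 p p.2 hpN) j
      rw [sub_self, Real.rpow_zero] at h3
      exact h3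
    · rw [h1]
      refine Finset.prod_congr rfl fun j _ => ?_
      rw [mul_assoc]
  choose α hα using key
  exact ⟨α, fun p => (hα p).1, fun p => (hα p).2.1, fun p => (hα p).2.2⟩

/-- an Euler product of weight `i` and degree `D` as an L-function of the class -/
theorem lfun_of_poly {i D r N : ℕ} {Q : ℝ} {μ : Fin D → ℝ} {P : ℕ → ℂ[X]} {Λ : ℂ → ℂ} (hN : N ≠ 0)
    (hD : 1 ≤ D) (hr : r ≤ D) (hQ : 1 ≤ Q) (hμ : ∀ j, 0 ≤ μ j)
    (h0 : ∀ p : ℕ, p.Prime → (P p).coeff 0 = 1)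
    (hd : ∀ p : ℕ, p.Prime → (P p).natDegree ≤ D)
    (hr1 : ∀ p : ℕ, p.Prime → ∀ z : ℂ, (P p).eval z = 0 → (p : ℝ) ^ (-(((i : ℝ) + 1) / 2)) ≤ ‖z‖)
    (hr2 : ∀ p : ℕ, p.Prime → ¬ p ∣ N → ∀ z : ℂ, (P p).eval z = 0 →
      (p : ℝ) ^ (-((i : ℝ) / 2)) ≤ ‖z‖)
    (hent : Differentiable ℂ Λ)
    (hord : ∃ A ρ : ℝ, ∀ s : ℂ, ‖Λ s‖ ≤ Real.exp (A * (1 + ‖s‖) ^ ρ))
    (hfe : ∃ ε : ℂ, ‖ε‖ = 1 ∧ ∀ s : ℂ, Λ s = ε * conj (Λ (i + 1 - conj s)))
    (heq : ∃ σ : ℝ, ∀ s : ℂ, σ ≤ s.re →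
      ∃ l : ℂ, HasProd (fun p : Nat.Primes => ((P p).eval (((p : ℕ) : ℂ) ^ (-s)))⁻¹) l ∧
      Λ s = ((s - (i : ℂ) / 2) * (s - (i : ℂ) / 2 - 1)) ^ r *
        ((Q : ℂ) ^ ((s - (i : ℂ) / 2) / 2) * ∏ j, Gammaℝ (s - (i : ℂ) / 2 + μ j)) * l) :
    ∃ (α : Nat.Primes → Fin D → ℂ) (b : ℕ → ℂ)
      (h : RawT (1 / 2) D r Q (fun j => (μ j : ℂ)) b (cF α) (fun s => Λ (s + (i : ℂ) / 2)))
      (str : ∀ j, -1 / 2 < ((fun j => (μ j : ℂ)) j).re),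
      (∀ p j, ‖α p j‖ ≤ ((p : ℕ) : ℝ) ^ (1 / 2 : ℝ)) ∧
      (∀ p : Nat.Primes, ¬ (p : ℕ) ∣ N → ∀ j, ‖α p j‖ ≤ 1) ∧
      (∀ (p : Nat.Primes) (z : ℂ), (P p).eval (((p : ℕ) : ℂ) ^ (-((i : ℂ) / 2)) * z) =
        ∏ j, (1 - α p j * z)) ∧
      ∀ B : ℝ, (∀ j, μ j ≤ B) → ∀ κ e : ℝ,
      (∀ y : ℝ, 1 ≤ y → ∑ n ∈ Finset.Icc 1 ⌊y⌋₊, vonMangoldt n ≤ κ * y + e) →
      ∀ δ : ℝ, 0 < δ →
      Pool.Agent.Zk3.WI.Bd ⟨D, r, Q, fun j => (μ j : ℂ), b, cF α, fun s => Λ (s + (i : ℂ) / 2), h, str⟩ B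
        (D * κ + δ) (D * e + 64 * (D * N.primeFactors.card : ℝ) ^ 4 / δ ^ 3) := by
  obtain ⟨α, h1, h2, h3⟩ := poly_roots h0 hd hr1 hr2
  have hhalf : ((i : ℂ) / 2) = ((((i : ℝ) / 2 : ℝ)) : ℂ) := by push_cast; rfl
  obtain ⟨b, hb1, hconv⟩ := exists_conv (cF α)
  have hb : RawT (1 / 2) D r Q (fun j => (μ j : ℂ)) b (cF α) (fun s => Λ (s + (i : ℂ) / 2)) := by
    refine ⟨hD, hr, hQ, by norm_num, by norm_num, fun j => ?_, ?_, ?_, ?_, hb1, cF_cb h1, hconv, ?_⟩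
    · show -1 / 2 ≤ ((μ j : ℝ) : ℂ).re
      rw [Complex.ofReal_re]
      have := hμ j
      linarith
    · exact hent.comp (by fun_prop : Differentiable ℂ fun z : ℂ => z + (i : ℂ) / 2)
    · have h4 := order_shift (κ := 1) (c := (i : ℝ) / 2) one_pos (by positivity) hord
      obtain ⟨A, ρ, h5⟩ := h4
      refine ⟨A, ρ, fun s => ?_⟩
      have h6 := h5 s
      rw [Complex.ofReal_one, one_mul, ← hhalf] at h6
      exact h6
    · obtain ⟨ε, hε, hf⟩ := hfe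
      refine ⟨ε, hε, fun s => ?_⟩
      show Λ (s + (i : ℂ) / 2) = ε * conj (Λ (1 - conj s + (i : ℂ) / 2))
      rw [hf]
      congr 3
      rw [map_add, hhalf, Complex.conj_ofReal, ← hhalf]
      ring
    · obtain ⟨σ, hσ⟩ := heq
      refine ⟨max σ 2, fun s hs => ?_⟩
      have hs1 := le_max_left σ 2
      have hs2 := le_max_right σ 2
      obtain ⟨l, hl1, hl2⟩ := hσ (s + (i : ℂ) / 2) (by
        rw [add_re, hhalf, ofReal_re]
        have : (0 : ℝ) ≤ (i : ℝ) / 2 := by positivity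
        linarith)
      show Λ (s + (i : ℂ) / 2) = _
      rw [hl2, lser_E h1 hb1 hconv (by linarith)]
      simp only [add_sub_cancel_right]
      congr 1
      rw [← hl1.tprod_eq]
      unfold E
      refine tprod_congr fun p => ?_
      rw [neg_add, Complex.cpow_add _ _ (p0 p), mul_comm, h3, ← Finset.prod_inv_distrib]
  have str : ∀ j, -1 / 2 < ((fun j => (μ j : ℂ)) j).re := by
    intro j
    show -1 / 2 < ((μ j : ℝ) : ℂ).re
    rw [Complex.ofReal_re]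
    have := hμ j
    linarith
  refine ⟨α, b, hb, str, h1, h2, h3, fun B hB κ e hψ δ hδ => ?_⟩
  refine bd_of hb str (fun j => ?_) (fun j => ?_) (S := N.primeFactors)
    (fun p hp => Nat.prime_of_mem_primeFactors hp) (fun p hp => h2 p fun hpN => hp ?_) h1 hψ hδ
  · show 0 ≤ ((μ j : ℝ) : ℂ).re
    rw [Complex.ofReal_re]
    exact hμ j
  · show ‖((μ j : ℝ) : ℂ)‖ ≤ B
    rw [Complex.norm_real, Real.norm_of_nonneg (hμ j)]
    exact hB j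
  · exact Nat.mem_primeFactors.2 ⟨p.2, hpN, hN⟩

end Pool.Agent.Zk1.WM
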