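import Pool.Agent.Cov.PNT
import Pool.Agent.Zk1.WM.Ply
import Pool.Agent.Zk2.HW.Cls

/-!
# Completed L-functions of Hasse-Weil type as members of the class of L-functions
-/

set_option autoImplicit false

open Complex Filter Topology Set Polynomial
open scoped ComplexConjugate

namespace Pool.Agent.Zk1.WM

open Pool.Agent.Y23.G (LFun)
open ArithmeticFunction (vonMangoldt)

/-- the prime number theorem as an upper bound -/
lemma psi_up {δ : ℝ} (hδ : 0 < δ) : ∃ e0 : ℝ, 0 ≤ e0 ∧ ∀ y : ℝ, 1 ≤ y →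
    ∑ n ∈ Finset.Icc 1 ⌊y⌋₊, vonMangoldt n ≤ (1 + δ) * y + e0 := by
  have h1 := Pool.Agent.Cov.PNT.psi_div_tendsto
  obtain ⟨Y, hY⟩ := eventually_atTop.1 (h1.eventually (gt_mem_nhds (show (1 : ℝ) < 1 + δ by linarith)))
  have hpsi : ∀ y : ℝ, Chebyshev.psi y = ∑ n ∈ Finset.Icc 1 ⌊y⌋₊, vonMangoldt n := by
    intro y
    unfold Chebyshev.psi
    refine Finset.sum_congr ?_ fun _ _ => rfl
    ext n
    simp [Finset.mem_Ioc, Finset.mem_Icc, Nat.one_le_iff_ne_zero, Nat.pos_iff_ne_zero]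
  refine ⟨Chebyshev.psi (max Y 1), Chebyshev.psi_nonneg _, fun y hy => ?_⟩
  rw [← hpsi]
  rcases le_total (max Y 1) y with h | h
  · have h2 := hY y ((le_max_left _ _).trans h)
    have hy0 : 0 < y := by linarith
    rw [div_lt_iff₀ hy0] at h2
    have := Chebyshev.psi_nonneg (max Y 1)
    linarith
  · have h2 := Chebyshev.psi_mono h
    have : 0 ≤ (1 + δ) * y := by positivity
    linarith

/-- L-functions of Hasse-Weil type -/
theorem bridge (D N : ℕ) (hN : N ≠ 0) (δ : ℝ) (hδ : 0 < δ) : ∃ e : ℝ, 0 ≤ e ∧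
    ∀ (i r : ℕ) (Q : ℝ) (μ : Fin D → ℝ) (P : ℕ → ℂ[X]) (Λ : ℂ → ℂ) (B : ℝ),
      Pool.Agent.Zk2.HW.IsHW i N r Q μ P Λ → (∀ j, μ j ≤ B) →
      ∃ L : LFun, L.m = D ∧ L.r = r ∧ L.N = Q ∧ (∀ s, L.X s = Λ (s + (i : ℂ) / 2)) ∧
        Pool.Agent.Zk3.WI.Bd L B (D + δ) e := by
  have hD0 : (0 : ℝ) ≤ D := Nat.cast_nonneg D
  have hη : 0 < δ / (2 * (D + 1)) := by positivity
  obtain ⟨e0, he0, hψ⟩ := psi_up hη
  have hδ2 : 0 < δ / 2 := by linarith
  refine ⟨D * e0 + 64 * (D * N.primeFactors.card : ℝ) ^ 4 / (δ / 2) ^ 3, by positivity,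
    fun i r Q μ P Λ B h hB => ?_⟩
  obtain ⟨α, b, hraw, str, h1, h2, h3, h4⟩ := lfun_of_poly hN h.degree_pos h.r_le h.one_le h.gamma
    h.constant h.degree h.roots h.pure h.entire h.order h.functional h.euler
  obtain ⟨k1, k2, k3⟩ := h4 B hB _ _ hψ _ hδ2
  refine ⟨⟨D, r, Q, fun j => (μ j : ℂ), b, cF α, fun s => Λ (s + (i : ℂ) / 2), hraw, str⟩, rfl, rfl,
    rfl, fun s => rfl, k1, k2, fun y hy => (k3 y hy).trans ?_⟩
  have h5 : (D : ℝ) * (1 + δ / (2 * (D + 1))) + δ / 2 ≤ D + δ := by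
    have h6 : (D : ℝ) * (δ / (2 * (D + 1))) ≤ δ / 2 := by
      rw [mul_div_assoc', div_le_div_iff₀ (by positivity) (by norm_num)]
      nlinarith
    linarith
  have hy0 : 0 ≤ y := by linarith
  nlinarith

end Pool.Agent.Zk1.WM
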