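import Pool.Agent.Zk1.WM.Ply
import Pool.Agent.Zk2.HW.Cls
import Pool.Agent.W355.UN.Inst2

/-!
# Newforms are of Hasse-Weil type
-/

set_option autoImplicit false

open Complex Filter Topology Set Polynomial
open scoped ComplexConjugate

namespace Pool.Agent.Zk1.WM

open Pool.Agent.W355.UN Pool.Agent.W355.LJ Pool.Agent.TH839.NA
open Pool.Agent.H304R3.HK (ts ts_eq gen_log)
open Pool.Agent.Zk2.HW (IsHW)

lemma order_shiftc {X : ℂ → ℂ} (c : ℂ) (h : ∃ A ρ : ℝ, ∀ s : ℂ, ‖X s‖ ≤ Real.exp (A * (1 + ‖s‖) ^ ρ)) :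
    ∃ A ρ : ℝ, ∀ s : ℂ, ‖X (s + c)‖ ≤ Real.exp (A * (1 + ‖s‖) ^ ρ) := by
  obtain ⟨A, ρ, hb⟩ := h
  refine ⟨|A| * (1 + ‖c‖) ^ |ρ|, |ρ|, fun s => (hb _).trans (Real.exp_le_exp.2 ?_)⟩
  have h1 : 1 ≤ 1 + ‖s‖ := by linarith [norm_nonneg s]
  have h2 : 1 ≤ 1 + ‖s + c‖ := by linarith [norm_nonneg (s + c)]
  have hc0 := norm_nonneg c
  have h3 : 1 + ‖s + c‖ ≤ (1 + ‖c‖) * (1 + ‖s‖) := by
    have h4 := norm_add_le s c
    nlinarith [norm_nonneg s]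
  have h5 : (1 + ‖s + c‖) ^ ρ ≤ (1 + ‖s + c‖) ^ |ρ| :=
    Real.rpow_le_rpow_of_exponent_le h2 (le_abs_self ρ)
  have h6 : (1 + ‖s + c‖) ^ |ρ| ≤ ((1 + ‖c‖) * (1 + ‖s‖)) ^ |ρ| :=
    Real.rpow_le_rpow (by linarith) h3 (abs_nonneg ρ)
  rw [Real.mul_rpow (by linarith) (by linarith)] at h6
  have h7 : 0 ≤ (1 + ‖s + c‖) ^ ρ := Real.rpow_nonneg (by linarith) _
  calc A * (1 + ‖s + c‖) ^ ρ ≤ |A| * (1 + ‖s + c‖) ^ ρ :=
        mul_le_mul_of_nonneg_right (le_abs_self A) h7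
    _ ≤ |A| * ((1 + ‖c‖) ^ |ρ| * (1 + ‖s‖) ^ |ρ|) :=
        mul_le_mul_of_nonneg_left (h5.trans h6) (abs_nonneg A)
    _ = _ := by ring

/-- the polynomial `1 - a(p) p^r T + ψ(p) p^i T²` -/
noncomputable def nfP (a ψ : ℕ → ℂ) (r i p : ℕ) : ℂ[X] :=
  1 - C (a p * (p : ℂ) ^ r) * X + C (ψ p * (p : ℂ) ^ i) * X ^ 2

lemma nfP_coeff (a ψ : ℕ → ℂ) (r i p : ℕ) : (nfP a ψ r i p).coeff 0 = 1 := by
  unfold nfP
  simp [Polynomial.coeff_X_pow]

lemma nfP_degree (a ψ : ℕ → ℂ) (r i p : ℕ) : (nfP a ψ r i p).natDegree ≤ 2 := by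
  unfold nfP
  compute_degree

lemma nfP_eval (a ψ : ℕ → ℂ) (r i p : ℕ) (z : ℂ) : (nfP a ψ r i p).eval z =
    1 - a p * (p : ℂ) ^ r * z + ψ p * (p : ℂ) ^ i * z ^ 2 := by
  unfold nfP
  simp

/-- the roots of a quadratic polynomial -/
lemma quad (s e : ℂ) : ∃ α β : ℂ, α + β = s ∧ α * β = e ∧ α ^ 2 - s * α + e = 0 ∧
    β ^ 2 - s * β + e = 0 := by
  obtain ⟨d, hd⟩ := IsAlgClosed.exists_pow_nat_eq (s ^ 2 - 4 * e) (n := 2) (by norm_num)
  refine ⟨(s + d) / 2, (s - d) / 2, by ring, ?_, ?_, ?_⟩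
  · linear_combination (-(1 : ℂ) / 4) * hd
  · linear_combination ((1 : ℂ) / 4) * hd
  · linear_combination ((1 : ℂ) / 4) * hd

/-- the local polynomial of a newform and its normalised roots -/
lemma nfP_fac {a ψ : ℕ → ℂ} {k i r p : ℕ} (hp : p.Prime) (hk : 1 ≤ k) (hw : k + 2 * r = i + 1)
    {u v : ℂ} (h1 : a p * pw (-(((k : ℝ) - 1) / 2)) p = u + v) (h2 : ψ p = u * v) (z : ℂ) :
    (nfP a ψ r i p).eval (((p : ℕ) : ℂ) ^ (-((i : ℂ) / 2)) * z) = (1 - u * z) * (1 - v * z) := by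
  have hp0 : (p : ℂ) ≠ 0 := by exact_mod_cast hp.ne_zero
  have hk' : (k : ℂ) + 2 * r = i + 1 := by exact_mod_cast hw
  rw [nfP_eval]
  have e1 : (p : ℂ) ^ r * ((p : ℂ) ^ (-((i : ℂ) / 2))) = pw (-(((k : ℝ) - 1) / 2)) p := by
    rw [pw_cpow _ hp.ne_zero, ← Complex.cpow_natCast, ← Complex.cpow_add _ _ hp0]
    congr 1
    push_cast
    linear_combination (1 / 2 : ℂ) * hk'
  have e2 : (p : ℂ) ^ i * ((p : ℂ) ^ (-((i : ℂ) / 2))) ^ 2 = 1 := by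
    rw [← Complex.cpow_natCast _ i, ← Complex.cpow_nat_mul, ← Complex.cpow_add _ _ hp0]
    rw [show (i : ℂ) + ((2 : ℕ) : ℂ) * (-((i : ℂ) / 2)) = 0 by push_cast; ring, Complex.cpow_zero]
  have e3 : a p * (p : ℂ) ^ r * ((p : ℂ) ^ (-((i : ℂ) / 2)) * z) = (u + v) * z := by
    rw [← h1, ← e1]
    ring
  have e4 : ψ p * (p : ℂ) ^ i * ((p : ℂ) ^ (-((i : ℂ) / 2)) * z) ^ 2 = u * v * z ^ 2 := by
    rw [mul_pow, ← h2]
    linear_combination (ψ p * z ^ 2) * e2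
  rw [e3, e4]
  ring

/-- **newforms of all levels and weights, with Tate twists** -/
theorem newf_HW {N : ℕ} [NeZero N] {k : ℕ} (hk : 1 ≤ k)
    (f : CuspForm (CongruenceSubgroup.Gamma1 N : Subgroup (GL (Fin 2) ℝ)) (k : ℤ)) {w : ℂ}
    (hf : IsNF N k f w) {ψ : ℕ → ℂ}
    (hmul : ∀ m n : ℕ, Nat.Coprime m n → (UpperHalfPlane.qExpansion 1 f).coeff (m * n) =
      (UpperHalfPlane.qExpansion 1 f).coeff m * (UpperHalfPlane.qExpansion 1 f).coeff n)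
    (hpow : ∀ p j : ℕ, p.Prime → (UpperHalfPlane.qExpansion 1 f).coeff (p ^ (j + 2)) =
      (UpperHalfPlane.qExpansion 1 f).coeff p * (UpperHalfPlane.qExpansion 1 f).coeff (p ^ (j + 1)) -
        ψ p * (p : ℂ) ^ ((k : ℤ) - 1) * (UpperHalfPlane.qExpansion 1 f).coeff (p ^ j))
    (hdel : ∀ p : ℕ, p.Prime → ∀ z : ℂ, z ^ 2 - (UpperHalfPlane.qExpansion 1 f).coeff p * z +
      ψ p * (p : ℂ) ^ ((k : ℤ) - 1) = 0 → ‖z‖ ≤ (p : ℝ) ^ (((k : ℝ) - 1) / 2))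
    {i r : ℕ} (hw : k + 2 * r = i + 1) :
    ∃ (μ : Fin 2 → ℝ) (Λ : ℂ → ℂ), (∀ j, μ j ≤ ((k : ℝ) + 1) / 2) ∧
      IsHW i 1 0 (N : ℝ) μ (nfP (fun n => (UpperHalfPlane.qExpansion 1 f).coeff n) ψ r i) Λ := by
  have hk1 : (1 : ℝ) ≤ k := by exact_mod_cast hk
  set a : ℕ → ℂ := fun n => (UpperHalfPlane.qExpansion 1 f).coeff n with ha
  set x : ℝ := -(((k : ℝ) - 1) / 2) with hx
  set b : ℕ → ℂ := fun n => a n * pw x n with hb
  have hN1 : (1 : ℝ) ≤ N := by exact_mod_cast Nat.one_le_iff_ne_zero.2 (NeZero.ne N)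
  -- the roots
  have hex : ∀ p : Nat.Primes, ∃ u v : ℂ, ‖u‖ ≤ 1 ∧ ‖v‖ ≤ 1 ∧ b p = u + v ∧ ψ p = u * v := by
    intro p
    have hp0 : (0 : ℝ) < ((p : ℕ) : ℝ) := by exact_mod_cast p.2.pos
    have hpc : ((p : ℕ) : ℂ) ≠ 0 := by exact_mod_cast p.2.ne_zero
    obtain ⟨α, β, h1, h2, h3, h4⟩ := quad (a p) (ψ p * ((p : ℕ) : ℂ) ^ ((k : ℤ) - 1))
    have hn : ∀ z : ℂ, ‖z‖ ≤ ((p : ℕ) : ℝ) ^ (((k : ℝ) - 1) / 2) → ‖z * pw x p‖ ≤ 1 := by
      intro z hz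
      rw [norm_mul, pw_norm]
      calc ‖z‖ * ((p : ℕ) : ℝ) ^ x ≤ ((p : ℕ) : ℝ) ^ (((k : ℝ) - 1) / 2) * ((p : ℕ) : ℝ) ^ x :=
            mul_le_mul_of_nonneg_right hz (Real.rpow_nonneg hp0.le _)
        _ = 1 := by
            rw [← Real.rpow_add hp0, hx]
            simp
    refine ⟨α * pw x p, β * pw x p, hn _ (hdel p p.2 α h3), hn _ (hdel p p.2 β h4), ?_, ?_⟩
    · show a p * pw x p = _
      rw [← h1]
      ring
    · have e1 : ((p : ℕ) : ℂ) ^ ((k : ℤ) - 1) * (pw x p * pw x p) = 1 := by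
        rw [pw_cpow _ p.2.ne_zero, ← Complex.cpow_intCast, ← Complex.cpow_add _ _ hpc,
          ← Complex.cpow_add _ _ hpc]
        rw [show (((k : ℤ) - 1 : ℤ) : ℂ) + (((x : ℝ) : ℂ) + ((x : ℝ) : ℂ)) = 0 by
          rw [hx]; push_cast; ring, Complex.cpow_zero]
      calc ψ p = ψ p * (((p : ℕ) : ℂ) ^ ((k : ℤ) - 1) * (pw x p * pw x p)) := by rw [e1, mul_one]
        _ = (ψ p * ((p : ℕ) : ℂ) ^ ((k : ℤ) - 1)) * (pw x p * pw x p) := by ring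
        _ = α * β * (pw x p * pw x p) := by rw [h2]
        _ = _ := by ring
  choose u v hu hv huv hψ using hex
  obtain ⟨α, hα⟩ : ∃ α : Nat.Primes → Fin 2 → ℂ, α = fun p => ![u p, v p] := ⟨_, rfl⟩
  have hα1 : ∀ p j, ‖α p j‖ ≤ 1 := by
    intro p j
    rw [hα]
    fin_cases j
    · exact hu p
    · exact hv p
  have hprod : ∀ (p : Nat.Primes) (z : ℂ), ∏ j, (1 - α p j * z) = (1 - u p * z) * (1 - v p * z) := by
    intro p z
    rw [Fin.prod_univ_two, hα]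
    rfl
  have hb1 : b 1 = 1 := by
    show a 1 * pw x 1 = 1
    rw [pw_one, mul_one]
    exact hf.one
  have hconv : Conv b (cF α) := by
    intro n hn
    refine gen_log b (fun p => if h : p.Prime then u ⟨p, h⟩ * v ⟨p, h⟩ else 0) (cF α) hb1
      (fun m n hmn => ?_) (fun p hp j => ?_) (fun p hp j => ?_) n hn
    · show a (m * n) * pw x (m * n) = a m * pw x m * (a n * pw x n)
      have h3 : a (m * n) = a m * a n := hmul m n hmn
      rw [h3, pw_mul]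
      ring
    · have e1 : pw x (p ^ (j + 2)) = pw x p * pw x (p ^ (j + 1)) := by
        rw [← pw_mul]
        congr 1
        ring
      have e2 : pw x (p ^ (j + 1)) = pw x p * pw x (p ^ j) := by
        rw [← pw_mul]
        congr 1
        ring
      have e3 : ψ p * (p : ℂ) ^ ((k : ℤ) - 1) * pw x p ^ 2 = u ⟨p, hp⟩ * v ⟨p, hp⟩ := by
        have hpc : (p : ℂ) ≠ 0 := by exact_mod_cast hp.ne_zero
        have e4 : (p : ℂ) ^ ((k : ℤ) - 1) * (pw x p) ^ 2 = 1 := by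
          rw [pow_two, pw_cpow _ hp.ne_zero, ← Complex.cpow_intCast, ← Complex.cpow_add _ _ hpc,
            ← Complex.cpow_add _ _ hpc]
          rw [show (((k : ℤ) - 1 : ℤ) : ℂ) + (((x : ℝ) : ℂ) + ((x : ℝ) : ℂ)) = 0 by
            rw [hx]; push_cast; ring, Complex.cpow_zero]
        rw [mul_assoc, e4, mul_one]
        exact hψ ⟨p, hp⟩
      have h3 : a (p ^ (j + 2)) = a p * a (p ^ (j + 1)) - ψ p * (p : ℂ) ^ ((k : ℤ) - 1) * a (p ^ j) :=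
        hpow p j hp
      show a (p ^ (j + 2)) * pw x (p ^ (j + 2)) = a p * pw x p * (a (p ^ (j + 1)) * pw x (p ^ (j + 1))) -
        (if h : p.Prime then u ⟨p, h⟩ * v ⟨p, h⟩ else 0) * (a (p ^ j) * pw x (p ^ j))
      rw [dif_pos hp, ← e3, h3, e1, e2]
      ring
    · show cF α (p ^ (j + 1)) = ts (b p) (if h : p.Prime then u ⟨p, h⟩ * v ⟨p, h⟩ else 0) (j + 1)
      have h4 : b p = u ⟨p, hp⟩ + v ⟨p, hp⟩ := huv ⟨p, hp⟩
      have h5 : cF α (p ^ (j + 1)) = ∑ l, α ⟨p, hp⟩ l ^ (j + 1) := cF_pow α ⟨p, hp⟩ (Nat.succ_ne_zero j)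
      rw [dif_pos hp, h4, ts_eq, h5, Fin.sum_univ_two, hα]
      rfl
  obtain ⟨w', X, hw', hC⟩ := nf_isC f hk hf
  have hraw := raw_of_isC (l := [((k : ℝ) - 1) / 2, ((k : ℝ) + 1) / 2]) (by simp) hN1 (fun a ha => by
    simp only [List.mem_cons, List.not_mem_nil, or_false] at ha
    rcases ha with rfl | rfl <;> linarith) hC hw' (c := cF α) (fun n => by
      simpa using cF_le hα1 n) hconv
  obtain ⟨l, hl⟩ : ∃ l : List ℂ, l = [((k : ℝ) - 1) / 2, ((k : ℝ) + 1) / 2].map fun a : ℝ => (a : ℂ) :=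
    ⟨_, rfl⟩
  rw [← hl] at hraw
  have hraw' : Raw l.length 0 N (fun j => l.get j) b (cF α) X := hraw
  have hhalf : ((i : ℂ) / 2) = ((((i : ℝ) / 2 : ℝ)) : ℂ) := by push_cast; rfl
  -- the roots of the local polynomials
  have hroots : ∀ p : ℕ, p.Prime → ∀ z : ℂ, (nfP a ψ r i p).eval z = 0 →
      (p : ℝ) ^ (-((i : ℝ) / 2)) ≤ ‖z‖ := by
    intro p hp z hz
    have hpc : (p : ℂ) ≠ 0 := by exact_mod_cast hp.ne_zero
    have hp0 : (0 : ℝ) < (p : ℝ) := by exact_mod_cast hp.pos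
    have e1 : z = (p : ℂ) ^ (-((i : ℂ) / 2)) * ((p : ℂ) ^ ((i : ℂ) / 2) * z) := by
      rw [← mul_assoc, ← Complex.cpow_add _ _ hpc, neg_add_cancel, Complex.cpow_zero, one_mul]
    rw [e1, nfP_fac hp hk hw (huv ⟨p, hp⟩) (hψ ⟨p, hp⟩)] at hz
    have hy : 1 ≤ ‖(p : ℂ) ^ ((i : ℂ) / 2) * z‖ := by
      have aux : ∀ t y : ℂ, ‖t‖ ≤ 1 → 1 - t * y = 0 → 1 ≤ ‖y‖ := by
        intro t y ht h
        have h1 : ‖t‖ * ‖y‖ = 1 := by
          rw [← norm_mul, ← sub_eq_zero.1 h, norm_one]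
        nlinarith [norm_nonneg y, norm_nonneg t]
      rcases mul_eq_zero.1 hz with h | h
      · exact aux _ _ (hu ⟨p, hp⟩) h
      · exact aux _ _ (hv ⟨p, hp⟩) h
    rw [norm_mul, Complex.norm_natCast_cpow_of_pos hp.pos, hhalf, ofReal_re] at hy
    rw [Real.rpow_neg hp0.le]
    exact (inv_le_iff_one_le_mul₀ (Real.rpow_pos_of_pos hp0 _)).2 (by rw [mul_comm]; exact hy)
  refine ⟨![((k : ℝ) - 1) / 2, ((k : ℝ) + 1) / 2], fun s => X (s - (i : ℂ) / 2), ?_, ?_⟩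
  · intro j
    fin_cases j
    · show ((k : ℝ) - 1) / 2 ≤ _
      linarith
    · exact le_rfl
  · refine ⟨by norm_num, by norm_num, hN1, ?_, fun p _ => nfP_coeff _ _ _ _ _,
      fun p _ => nfP_degree _ _ _ _ _, fun p hp z hz => ?_, fun p hp _ z hz => hroots p hp z hz,
      ?_, ?_, ?_, ?_⟩
    · intro j
      fin_cases j
      · show 0 ≤ ((k : ℝ) - 1) / 2
        linarith
      · show 0 ≤ ((k : ℝ) + 1) / 2
        linarith
    · refine le_trans ?_ (hroots p hp z hz)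
      exact Real.rpow_le_rpow_of_exponent_le (by exact_mod_cast hp.one_le) (by linarith)
    · exact hraw'.entire.comp (by fun_prop : Differentiable ℂ fun z : ℂ => z - (i : ℂ) / 2)
    · obtain ⟨A, ρ, h⟩ := order_shiftc (-((i : ℂ) / 2)) hraw'.order
      exact ⟨A, ρ, fun s => by rw [sub_eq_add_neg]; exact h s⟩
    · obtain ⟨ε, hε, hf⟩ := hraw'.fe
      refine ⟨ε, hε, fun s => ?_⟩
      show X (s - (i : ℂ) / 2) = ε * conj (X (i + 1 - conj s - (i : ℂ) / 2))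
      rw [hf]
      congr 3
      rw [map_sub, hhalf, Complex.conj_ofReal, ← hhalf]
      ring
    · obtain ⟨σ, hσ⟩ := hraw'.eq
      refine ⟨max σ 2 + (i : ℝ) / 2, fun s hs => ?_⟩
      have hs1 := le_max_left σ 2
      have hs2 := le_max_right σ 2
      have hre : (s - (i : ℂ) / 2).re = s.re - (i : ℝ) / 2 := by
        rw [sub_re, hhalf, ofReal_re]
      have h1 : 1 < (s - (i : ℂ) / 2).re := by rw [hre]; linarith
      refine ⟨LSeries b (s - (i : ℂ) / 2), ?_, ?_⟩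
      · have h2 := exp_prod hα1 h1
        rw [← lser_eq hα1 hb1 hconv h1] at h2
        refine h2.congr_fun ?_ |> fun h => h
        intro p
        rw [Finset.prod_inv_distrib, hprod, ← nfP_fac p.2 hk hw (huv p) (hψ p), ← Complex.cpow_add _ _ (p0 p)]
        congr 3
        ring
      · show X (s - (i : ℂ) / 2) = _
        rw [hσ _ (by rw [hre]; linarith), Pool.Agent.W355.UN.prod_get l
          (fun c : ℂ => Gammaℝ (s - (i : ℂ) / 2 + c)), hl, Fin.prod_univ_two]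
        simp only [List.map_cons, List.map_nil, List.prod_cons, List.prod_nil, mul_one,
          Complex.ofReal_natCast, Matrix.cons_val_zero, Matrix.cons_val_one]

end Pool.Agent.Zk1.WM
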