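import Pool.Agent.Zk1.WM.Pr
import Pool.Agent.TH839.NA.Raw
import Pool.Agent.Zk3.WI.Def

/-!
# Euler products of degree `m` are members of the class of L-functions
-/

set_option autoImplicit false

open Complex Filter Topology Set
open scoped ComplexConjugate

namespace Pool.Agent.Zk1.WM

open Pool.Agent.W355.UN Pool.Agent.TH839.NA
open Pool.Agent.Y23.G (LFun)
open ArithmeticFunction (vonMangoldt)

variable {m : ℕ}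

/-- the roots divided by `√p` -/
noncomputable def sc (α : Nat.Primes → Fin m → ℂ) (p : Nat.Primes) (j : Fin m) : ℂ :=
  α p j * pw (-(1 / 2)) p

lemma sc_le {α : Nat.Primes → Fin m → ℂ} (h : ∀ p j, ‖α p j‖ ≤ ((p : ℕ) : ℝ) ^ (1 / 2 : ℝ))
    (p : Nat.Primes) (j : Fin m) : ‖sc α p j‖ ≤ 1 := by
  have hp0 : (0 : ℝ) < ((p : ℕ) : ℝ) := by exact_mod_cast p.2.pos
  unfold sc
  rw [norm_mul, pw_norm]
  calc ‖α p j‖ * ((p : ℕ) : ℝ) ^ (-(1 / 2) : ℝ) ≤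
      ((p : ℕ) : ℝ) ^ (1 / 2 : ℝ) * ((p : ℕ) : ℝ) ^ (-(1 / 2) : ℝ) :=
        mul_le_mul_of_nonneg_right (h p j) (Real.rpow_nonneg hp0.le _)
    _ = 1 := by
        rw [← Real.rpow_add hp0]
        norm_num

lemma pw_pow (x : ℝ) (n k : ℕ) : pw x (n ^ k) = pw x n ^ k := by
  induction k with
  | zero => rw [pow_zero, pow_zero, pw_one]
  | succ k ih => rw [pow_succ, pow_succ, pw_mul, ih]

lemma cF_sc (α : Nat.Primes → Fin m → ℂ) (n : ℕ) : cF (sc α) n = cF α n * pw (-(1 / 2)) n := by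
  by_cases h : IsPrimePow n
  · obtain ⟨p, k, hp, hk, rfl⟩ := (isPrimePow_nat_iff n).1 h
    have e1 : cF (sc α) (p ^ k) = ∑ j, sc α ⟨p, hp⟩ j ^ k := cF_pow (sc α) ⟨p, hp⟩ hk.ne'
    have e2 : cF α (p ^ k) = ∑ j, α ⟨p, hp⟩ j ^ k := cF_pow α ⟨p, hp⟩ hk.ne'
    rw [e1, e2, pw_pow, Finset.sum_mul]
    refine Finset.sum_congr rfl fun j _ => ?_
    unfold sc
    rw [mul_pow]
  · rw [cF_zero _ h, cF_zero _ h, zero_mul]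

lemma cF_cb {α : Nat.Primes → Fin m → ℂ} (h : ∀ p j, ‖α p j‖ ≤ ((p : ℕ) : ℝ) ^ (1 / 2 : ℝ)) (n : ℕ) :
    ‖cF α n‖ ≤ m * (n : ℝ) ^ (1 / 2 : ℝ) := by
  refine cF_ind α (P := fun n z => ‖z‖ ≤ (m : ℝ) * (n : ℝ) ^ (1 / 2 : ℝ))
    (fun n _ => by
      rw [norm_zero]
      exact mul_nonneg (Nat.cast_nonneg _) (Real.rpow_nonneg (Nat.cast_nonneg _) _))
    (fun p k _ => ?_) n
  have hp0 : (0 : ℝ) ≤ ((p : ℕ) : ℝ) := Nat.cast_nonneg _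
  refine (norm_sum_le _ _).trans ?_
  have : ∀ j ∈ (Finset.univ : Finset (Fin m)), ‖α p j ^ k‖ ≤
      ((((p : ℕ) ^ k : ℕ)) : ℝ) ^ (1 / 2 : ℝ) := by
    intro j _
    rw [norm_pow, Nat.cast_pow, ← Real.rpow_natCast, ← Real.rpow_natCast, ← Real.rpow_mul hp0]
    calc ‖α p j‖ ^ (k : ℝ) ≤ (((p : ℕ) : ℝ) ^ (1 / 2 : ℝ)) ^ (k : ℝ) :=
          Real.rpow_le_rpow (norm_nonneg _) (h p j) (Nat.cast_nonneg _)
      _ = ((p : ℕ) : ℝ) ^ ((k : ℝ) * (1 / 2)) := by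
          rw [← Real.rpow_mul hp0]
          congr 1
          ring
  refine (Finset.sum_le_sum this).trans (le_of_eq ?_)
  rw [Finset.sum_const, Finset.card_univ, Fintype.card_fin, nsmul_eq_mul]

/-- the Euler product -/
noncomputable def E (α : Nat.Primes → Fin m → ℂ) (s : ℂ) : ℂ :=
  ∏' p : Nat.Primes, ∏ j, (1 - α p j * ((p : ℕ) : ℂ) ^ (-s))⁻¹

theorem lser_E {α : Nat.Primes → Fin m → ℂ}
    (h : ∀ p j, ‖α p j‖ ≤ ((p : ℕ) : ℝ) ^ (1 / 2 : ℝ)) {b : ℕ → ℂ} (hb1 : b 1 = 1)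
    (hconv : Conv b (cF α)) {s : ℂ} (hs : 3 / 2 < s.re) : LSeries b s = E α s := by
  have h1 : Conv (fun n => b n * pw (-(1 / 2)) n) (cF (sc α)) := by
    have h2 := conv_pw hconv (-(1 / 2))
    have e : cF (sc α) = fun n => cF α n * pw (-(1 / 2)) n := funext fun n => cF_sc α n
    rw [e]
    exact h2
  have hs' : 1 < (s - ((1 / 2 : ℝ) : ℂ)).re := by
    rw [sub_re, ofReal_re]
    linarith
  have h2 := lser_eq (sc_le h) (b := fun n => b n * pw (-(1 / 2)) n)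
    (by show b 1 * pw (-(1 / 2)) 1 = 1; rw [hb1, pw_one, one_mul]) h1 hs'
  have h3 := exp_prod (sc_le h) hs'
  rw [← h2] at h3
  have h4 : LSeries b s = LSeries (fun n => b n * pw (-(1 / 2)) n) (s - ((1 / 2 : ℝ) : ℂ)) :=
    congrFun (lser_shift b (1 / 2)) s
  rw [h4, ← h3.tprod_eq]
  unfold E
  refine tprod_congr fun p => Finset.prod_congr rfl fun j _ => ?_
  have hp0 : ((p : ℕ) : ℂ) ≠ 0 := by exact_mod_cast p.2.ne_zero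
  unfold sc
  rw [pw_cpow _ p.2.ne_zero, mul_assoc, ← Complex.cpow_add _ _ hp0]
  congr 4
  push_cast
  ring

/-- the bounds for an Euler product; `S` contains the primes with roots larger than one -/
theorem bd_of {A : ℝ} {r : ℕ} {N : ℝ} {a : Fin m → ℂ} {α : Nat.Primes → Fin m → ℂ} {X : ℂ → ℂ}
    {b : ℕ → ℂ} (h : RawT (1 / 2) m r N a b (cF α) X) (str : ∀ j, -1 / 2 < (a j).re)
    (re0 : ∀ j, 0 ≤ (a j).re) (ale : ∀ j, ‖a j‖ ≤ A) {S : Finset ℕ} (hS : ∀ p ∈ S, p.Prime)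
    (h1 : ∀ p : Nat.Primes, (p : ℕ) ∉ S → ∀ j, ‖α p j‖ ≤ 1)
    (h2 : ∀ p j, ‖α p j‖ ≤ ((p : ℕ) : ℝ) ^ (1 / 2 : ℝ)) {κ e : ℝ}
    (hψ : ∀ y : ℝ, 1 ≤ y → ∑ n ∈ Finset.Icc 1 ⌊y⌋₊, vonMangoldt n ≤ κ * y + e) {δ : ℝ}
    (hδ : 0 < δ) :
    Pool.Agent.Zk3.WI.Bd ⟨m, r, N, a, b, cF α, X, h, str⟩ A (m * κ + δ)
      (m * e + 64 * (m * S.card : ℝ) ^ 4 / δ ^ 3) :=
  ⟨re0, ale, fun y hy => cF_sum hS h1 h2 hψ hδ y hy⟩

theorem bd_of' {A : ℝ} {r : ℕ} {N : ℝ} {a : Fin m → ℂ} {α : Nat.Primes → Fin m → ℂ} {X : ℂ → ℂ}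
    {b : ℕ → ℂ} (h : RawT (1 / 2) m r N a b (cF α) X) (str : ∀ j, -1 / 2 < (a j).re)
    (re0 : ∀ j, 0 ≤ (a j).re) (ale : ∀ j, ‖a j‖ ≤ A)
    (h1 : ∀ p j, ‖α p j‖ ≤ 1) {κ e : ℝ}
    (hψ : ∀ y : ℝ, 1 ≤ y → ∑ n ∈ Finset.Icc 1 ⌊y⌋₊, vonMangoldt n ≤ κ * y + e) :
    Pool.Agent.Zk3.WI.Bd ⟨m, r, N, a, b, cF α, X, h, str⟩ A (m * κ) (m * e) :=
  ⟨re0, ale, fun y hy => cF_sum' h1 hψ y hy⟩

end Pool.Agent.Zk1.WM
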