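import Pool.Agent.Zk1.WM.Ply
import Pool.Agent.Zk2.HW.Cls

/-!
# The L-functions of the cohomology of `X` are of Hasse-Weil type
-/

set_option autoImplicit false

open Complex Filter Topology Set Polynomial
open scoped ComplexConjugate

namespace Pool.Agent.Zk1.WM

open Pool.Agent.TH839.NA
open Pool.Agent.Zk2.HW (IsHW)

/-- the Euler product converges -/
theorem hasProd_E {m : ℕ} {α : Nat.Primes → Fin m → ℂ}
    (h : ∀ p j, ‖α p j‖ ≤ ((p : ℕ) : ℝ) ^ (1 / 2 : ℝ)) {s : ℂ} (hs : 3 / 2 < s.re) :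
    HasProd (fun p : Nat.Primes => ∏ j, (1 - α p j * ((p : ℕ) : ℂ) ^ (-s))⁻¹) (E α s) := by
  have hs' : 1 < (s - ((1 / 2 : ℝ) : ℂ)).re := by
    rw [sub_re, ofReal_re]
    linarith
  have h3 := exp_prod (sc_le h) hs'
  have e : (fun p : Nat.Primes => ∏ j, (1 - sc α p j * ((p : ℕ) : ℂ) ^ (-(s - ((1 / 2 : ℝ) : ℂ))))⁻¹) =
      fun p : Nat.Primes => ∏ j, (1 - α p j * ((p : ℕ) : ℂ) ^ (-s))⁻¹ := by
    funext p
    refine Finset.prod_congr rfl fun j _ => ?_
    have hp0 : ((p : ℕ) : ℂ) ≠ 0 := by exact_mod_cast p.2.ne_zero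
    unfold sc
    rw [pw_cpow _ p.2.ne_zero, mul_assoc, ← Complex.cpow_add _ _ hp0]
    congr 4
    push_cast
    ring
  rw [e] at h3
  have h4 : E α s = cexp (LSeries (gF (sc α)) (s - ((1 / 2 : ℝ) : ℂ))) := h3.tprod_eq
  rw [h4]
  exact h3

/-- the list of parameters -/
noncomputable def rl (i : ℕ) (h : ℕ → ℕ) (a b : ℕ) : List ℝ :=
  ((List.range ((i + 1) / 2)).flatMap fun p : ℕ => List.replicate (h p) ((i : ℝ) / 2 - p) ++
    List.replicate (h p) ((i : ℝ) / 2 - p + 1)) ++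
    (if Even i then List.replicate a 0 ++ List.replicate b 1 else [])

theorem rl_prod (i : ℕ) (h : ℕ → ℕ) (a b : ℕ) {M : Type} [CommMonoid M] (f : ℝ → M) :
    ((rl i h a b).map f).prod =
      (∏ p ∈ Finset.range ((i + 1) / 2), (f ((i : ℝ) / 2 - p) * f ((i : ℝ) / 2 - p + 1)) ^ h p) *
        (if Even i then f 0 ^ a * f 1 ^ b else 1) := by
  unfold rl
  rw [List.map_append, List.prod_append]
  congr 1
  · generalize (i + 1) / 2 = n
    induction n with
    | zero => simp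
    | succ n ih =>
      rw [List.range_succ, Finset.prod_range_succ, ← ih]
      simp only [List.flatMap_append, List.map_append, List.prod_append, List.flatMap_singleton,
        List.map_replicate, List.prod_replicate, mul_pow]
  · split_ifs
    · simp only [List.map_append, List.prod_append, List.map_replicate, List.prod_replicate]
    · simp

theorem rl_length (i : ℕ) (h : ℕ → ℕ) (a b : ℕ) : (rl i h a b).length =
    2 * ∑ p ∈ Finset.range ((i + 1) / 2), h p + (if Even i then a + b else 0) := by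
  unfold rl
  rw [List.length_append]
  congr 1
  · generalize (i + 1) / 2 = n
    induction n with
    | zero => simp
    | succ n ih =>
      rw [List.range_succ, Finset.sum_range_succ, List.flatMap_append, List.length_append, ih]
      simp only [List.flatMap_singleton, List.length_append, List.length_replicate]
      ring
  · split_ifs
    · simp only [List.length_append, List.length_replicate]
    · rfl

theorem rl_mem (i : ℕ) (h : ℕ → ℕ) (a b : ℕ) : ∀ c ∈ rl i h a b, 0 ≤ c ∧ c ≤ (i : ℝ) / 2 + 1 := by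
  intro c hc
  unfold rl at hc
  have hi0 : (0 : ℝ) ≤ i := Nat.cast_nonneg i
  rcases List.mem_append.1 hc with hc | hc
  · obtain ⟨p, hp, hc⟩ := List.mem_flatMap.1 hc
    have hp' : p < (i + 1) / 2 := List.mem_range.1 hp
    have hp2 : 2 * p ≤ i := by omega
    have hp3 : (2 * p : ℝ) ≤ i := by exact_mod_cast hp2
    have hp0 : (0 : ℝ) ≤ p := Nat.cast_nonneg p
    rcases List.mem_append.1 hc with hc | hc
    · rw [List.eq_of_mem_replicate hc]
      constructor <;> linarith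
    · rw [List.eq_of_mem_replicate hc]
      constructor <;> linarith
  · split_ifs at hc
    · rcases List.mem_append.1 hc with hc | hc
      · rw [List.eq_of_mem_replicate hc]
        constructor <;> linarith
      · rw [List.eq_of_mem_replicate hc]
        constructor <;> linarith
    · exact absurd hc List.not_mem_nil

lemma of_list (l : List ℝ) : ∀ D : ℕ, l.length = D → ∃ μ : Fin D → ℝ, (∀ j, μ j ∈ l) ∧
    ∀ f : ℝ → ℂ, ∏ j, f (μ j) = (l.map f).prod := by
  rintro D rfl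
  refine ⟨fun j => l.get j, fun j => List.get_mem l j, fun f => ?_⟩
  rw [← List.prod_ofFn]
  congr 1
  conv_rhs => rw [← List.ofFn_get l]
  rw [List.map_ofFn]
  rfl

lemma conj_pow' {x : ℂ} (hx : x.arg ≠ Real.pi) (hr : conj x = x) (w : ℂ) :
    conj (x ^ w) = x ^ conj w := by
  rw [Complex.cpow_conj _ _ hx, hr]

lemma GR_conj (s : ℂ) : Gammaℝ (conj s) = conj (Gammaℝ s) := by
  have hpi : ((Real.pi : ℂ)).arg ≠ Real.pi := by
    rw [Complex.arg_ofReal_of_nonneg Real.pi_pos.le]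
    exact Real.pi_pos.ne
  rw [Complex.Gammaℝ_def, Complex.Gammaℝ_def, map_mul, conj_pow' hpi (Complex.conj_ofReal _),
    ← Complex.Gamma_conj]
  simp only [map_neg, map_div₀, map_ofNat]

lemma GC_conj (s : ℂ) : Gammaℂ (conj s) = conj (Gammaℂ s) := by
  rw [← Complex.Gammaℝ_mul_Gammaℝ_add_one, ← Complex.Gammaℝ_mul_Gammaℝ_add_one, map_mul,
    ← GR_conj, ← GR_conj, map_add, map_one]

lemma eval_conj (P : ℤ[X]) (z : ℂ) : (P.map (algebraMap ℤ ℂ)).eval (conj z) =
    conj ((P.map (algebraMap ℤ ℂ)).eval z) := by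
  rw [Polynomial.eval_map, Polynomial.eval_map]
  have h := (Polynomial.hom_eval₂ P (algebraMap ℤ ℂ) (starRingEnd ℂ) z).symm
  have e : (starRingEnd ℂ).comp (algebraMap ℤ ℂ) = algebraMap ℤ ℂ := RingHom.ext_int _ _
  rw [e] at h
  exact h

/-- **the completed L-functions of the cohomology of `X` are of Hasse-Weil type** -/
theorem coh_IsHW {i : ℕ} {h : ℕ → ℕ} {a b N : ℕ} {P : ℕ → ℤ[X]}
    (hpos : 1 ≤ 2 * ∑ p ∈ Finset.range ((i + 1) / 2), h p + (if Even i then a + b else 0))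
    (hP0 : ∀ p, p.Prime → (P p).coeff 0 = 1)
    (hPd : ∀ p, p.Prime → (P p).natDegree ≤
      2 * ∑ p ∈ Finset.range ((i + 1) / 2), h p + (if Even i then a + b else 0))
    (hPr : ∀ p : ℕ, p.Prime → ∀ z : ℂ, aeval z (P p) = 0 → (p : ℝ) ^ (-(((i : ℝ) + 1) / 2)) ≤ ‖z‖)
    (hPg : ∀ p : ℕ, p.Prime → ¬ p ∣ N → ∀ z : ℂ, aeval z (P p) = 0 →
      (p : ℝ) ^ (-((i : ℝ) / 2)) ≤ ‖z‖)
    {A : ℝ} {r : ℕ} {Λ : ℂ → ℂ} (hA : 1 ≤ A)
    (hr : r ≤ 2 * ∑ p ∈ Finset.range ((i + 1) / 2), h p + (if Even i then a + b else 0))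
    (hent : Differentiable ℂ Λ)
    (hord : ∃ A ρ : ℝ, ∀ s : ℂ, ‖Λ s‖ ≤ Real.exp (A * (1 + ‖s‖) ^ ρ))
    (hfe : ∃ ε : ℝ, (ε = 1 ∨ ε = -1) ∧ ∀ s : ℂ, Λ s = ε * Λ (i + 1 - s))
    (heq : ∃ σ : ℝ, ∀ s : ℂ, σ ≤ s.re → Λ s = ((s - (i : ℂ) / 2) * (s - (i : ℂ) / 2 - 1)) ^ r *
      ((A : ℂ) ^ (s / 2) * ((∏ p ∈ Finset.range ((i + 1) / 2), Gammaℂ (s - p) ^ h p) *
        (if Even i then Gammaℝ (s - (i : ℂ) / 2) ^ a * Gammaℝ (s - (i : ℂ) / 2 + 1) ^ b else 1)) *
        ∏' p : Nat.Primes, (aeval (((p : ℕ) : ℂ) ^ (-s)) (P p))⁻¹)) :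
    ∃ μ : Fin (2 * ∑ p ∈ Finset.range ((i + 1) / 2), h p + (if Even i then a + b else 0)) → ℝ,
      (∀ j, μ j ≤ (i : ℝ) / 2 + 1) ∧
      IsHW i N r A μ (fun p => (P p).map (algebraMap ℤ ℂ))
        (fun s => ((A ^ (-((i : ℝ) / 4)) : ℝ) : ℂ) * Λ s) := by
  obtain ⟨D, hD⟩ : ∃ D, D = 2 * ∑ p ∈ Finset.range ((i + 1) / 2), h p + (if Even i then a + b else 0) :=
    ⟨_, rfl⟩
  rw [← hD] at hpos hPd hr ⊢
  obtain ⟨μ, hμ1, hμ2⟩ := of_list (rl i h a b) D (by rw [rl_length, hD])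
  have hμ0 : ∀ j, 0 ≤ μ j ∧ μ j ≤ (i : ℝ) / 2 + 1 := fun j => rl_mem i h a b _ (hμ1 j)
  have hA0 : 0 < A := by linarith
  have hAc : (A : ℂ) ≠ 0 := by exact_mod_cast hA0.ne'
  have hae : ∀ (p : ℕ) (z : ℂ), aeval z (P p) = ((P p).map (algebraMap ℤ ℂ)).eval z := fun p z => by
    rw [Polynomial.eval_map, Polynomial.aeval_def]
  have hhalf : ((i : ℂ) / 2) = ((((i : ℝ) / 2 : ℝ)) : ℂ) := by push_cast; rfl
  have hc0 : ∀ p : ℕ, p.Prime → ((P p).map (algebraMap ℤ ℂ)).coeff 0 = 1 := fun p hp => by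
    rw [Polynomial.coeff_map, hP0 p hp, map_one]
  have hdg : ∀ p : ℕ, p.Prime → ((P p).map (algebraMap ℤ ℂ)).natDegree ≤ D := fun p hp =>
    (Polynomial.natDegree_map_le).trans (hPd p hp)
  obtain ⟨α, hα1, -, hα3⟩ := poly_roots (i := i) (N := N) hc0 hdg
    (fun p hp z hz => hPr p hp z (by rw [hae]; exact hz))
    (fun p hp hpN z hz => hPg p hp hpN z (by rw [hae]; exact hz))
  -- the Euler product
  have hprod : ∀ s : ℂ, 3 / 2 + (i : ℝ) / 2 < s.re →
      HasProd (fun p : Nat.Primes => (((P p).map (algebraMap ℤ ℂ)).eval (((p : ℕ) : ℂ) ^ (-s)))⁻¹)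
        (E α (s - (i : ℂ) / 2)) := by
    intro s hs
    have h1 := hasProd_E hα1 (s := s - (i : ℂ) / 2) (by
      rw [sub_re, hhalf, ofReal_re]
      linarith)
    refine h1.congr_fun ?_ |> fun h => h
    intro p
    rw [Finset.prod_inv_distrib, ← hα3, ← Complex.cpow_add _ _ (p0 p)]
    congr 3
    ring
  have htp : ∀ s : ℂ, 3 / 2 + (i : ℝ) / 2 < s.re →
      (∏' p : Nat.Primes, (aeval (((p : ℕ) : ℂ) ^ (-s)) (P p))⁻¹) = E α (s - (i : ℂ) / 2) := by
    intro s hs
    rw [← (hprod s hs).tprod_eq]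
    exact tprod_congr fun p => by rw [hae]
  -- the constant
  obtain ⟨κ, hκd⟩ : ∃ κ : ℝ, κ = A ^ (-((i : ℝ) / 4)) := ⟨_, rfl⟩
  have hκ : 0 < κ := by rw [hκd]; positivity
  have hκA : (κ : ℂ) * (A : ℂ) ^ ((i : ℂ) / 4) = 1 := by
    rw [hκd, Complex.ofReal_cpow hA0.le, ← Complex.cpow_add _ _ hAc]
    push_cast
    rw [neg_add_cancel, Complex.cpow_zero]
  rw [← hκd]
  -- `Λ` is real on the real axis
  have hreal : ∀ s : ℂ, conj (Λ (conj s)) = Λ s := by
    have h1 : AnalyticOnNhd ℂ Λ univ := fun z _ => hent.analyticAt z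
    have h2 : AnalyticOnNhd ℂ (fun s => conj (Λ (conj s))) univ := by
      have : Differentiable ℂ (fun s => conj (Λ (conj s))) := by
        intro z
        have := (hent (conj z)).hasDerivAt.conj_conj
        rw [Complex.conj_conj] at this
        exact this.differentiableAt
      exact fun z _ => this.analyticAt z
    obtain ⟨σ, hσ⟩ := heq
    obtain ⟨τ, hτ⟩ : ∃ τ : ℝ, τ = max σ (2 + (i : ℝ) / 2) := ⟨_, rfl⟩
    intro s
    refine h2.eqOn_of_preconnected_of_eventuallyEq h1 isPreconnected_univ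
      (mem_univ (((τ + 1 : ℝ) : ℂ))) ?_ (mem_univ s)
    have h3 : ∀ᶠ z : ℂ in 𝓝 ((τ + 1 : ℝ) : ℂ), τ < z.re :=
      (Complex.continuous_re.tendsto _).eventually (lt_mem_nhds (by
        rw [ofReal_re]; linarith))
    filter_upwards [h3] with z hz
    have hz1 : σ ≤ z.re := by
      have := le_max_left σ (2 + (i : ℝ) / 2)
      linarith
    have hz2 : 2 + (i : ℝ) / 2 ≤ z.re := by
      have := le_max_right σ (2 + (i : ℝ) / 2)
      linarith
    rw [hσ (conj z) (by rw [Complex.conj_re]; exact hz1), hσ z hz1]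
    have hAa : ((A : ℂ)).arg ≠ Real.pi := by
      rw [Complex.arg_ofReal_of_nonneg hA0.le]
      exact Real.pi_pos.ne
    have hE : conj (∏' p : Nat.Primes, (aeval (((p : ℕ) : ℂ) ^ (-(conj z))) (P p))⁻¹) =
        ∏' p : Nat.Primes, (aeval (((p : ℕ) : ℂ) ^ (-z)) (P p))⁻¹ := by
      have hp := hprod (conj z) (by rw [Complex.conj_re]; linarith)
      have hp2 := hp.map (starRingEnd ℂ) Complex.continuous_conj
      have e2 : ∀ p : Nat.Primes, conj ((((P p).map (algebraMap ℤ ℂ)).eval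
          (((p : ℕ) : ℂ) ^ (-(conj z))))⁻¹) =
          (((P p).map (algebraMap ℤ ℂ)).eval (((p : ℕ) : ℂ) ^ (-z)))⁻¹ := fun p => by
        have hn : ((((p : ℕ) : ℕ) : ℂ)).arg ≠ Real.pi := by
          rw [Complex.natCast_arg]
          exact Real.pi_pos.ne
        rw [map_inv₀, ← eval_conj, conj_pow' hn (Complex.conj_natCast _)]
        simp only [map_neg, Complex.conj_conj]
      have hp3 : HasProd (fun p : Nat.Primes => (((P p).map (algebraMap ℤ ℂ)).eval
          (((p : ℕ) : ℂ) ^ (-z)))⁻¹) (conj (E α (conj z - (i : ℂ) / 2))) := by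
        refine hp2.congr_fun fun p => ?_
        simp only [Function.comp_apply]
        rw [e2]
      have e3 : ∀ w : ℂ, (∏' p : Nat.Primes, (aeval (((p : ℕ) : ℂ) ^ (-w)) (P p))⁻¹) =
          ∏' p : Nat.Primes, (((P p).map (algebraMap ℤ ℂ)).eval (((p : ℕ) : ℂ) ^ (-w)))⁻¹ :=
        fun w => tprod_congr fun p => by rw [hae]
      rw [e3, e3, hp.tprod_eq, hp3.tprod_eq]
    have hG : conj ((∏ p ∈ Finset.range ((i + 1) / 2), Gammaℂ (conj z - p) ^ h p) *
        (if Even i then Gammaℝ (conj z - (i : ℂ) / 2) ^ a * Gammaℝ (conj z - (i : ℂ) / 2 + 1) ^ b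
          else 1)) = (∏ p ∈ Finset.range ((i + 1) / 2), Gammaℂ (z - p) ^ h p) *
        (if Even i then Gammaℝ (z - (i : ℂ) / 2) ^ a * Gammaℝ (z - (i : ℂ) / 2 + 1) ^ b
          else 1) := by
      have e1 : ∀ p : ℕ, conj z - (p : ℂ) = conj (z - p) := fun p => by
        rw [map_sub, Complex.conj_natCast]
      have e2 : conj z - (i : ℂ) / 2 = conj (z - (i : ℂ) / 2) := by
        rw [map_sub, map_div₀, Complex.conj_natCast, map_ofNat]
      have e3 : conj z - (i : ℂ) / 2 + 1 = conj (z - (i : ℂ) / 2 + 1) := by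
        rw [map_add, ← e2, map_one]
      rw [e3, e2, map_mul, map_prod]
      congr 1
      · refine Finset.prod_congr rfl fun p _ => ?_
        rw [e1, map_pow, GC_conj, Complex.conj_conj]
      · split_ifs
        · rw [map_mul, map_pow, map_pow, GR_conj, GR_conj, Complex.conj_conj, Complex.conj_conj]
        · rw [map_one]
    have e4 : (starRingEnd ℂ) ((i : ℂ) / 2) = (i : ℂ) / 2 := by
      rw [map_div₀, Complex.conj_natCast, map_ofNat]
    have e5 : conj ((A : ℂ) ^ (conj z / 2)) = (A : ℂ) ^ (z / 2) := by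
      rw [conj_pow' hAa (Complex.conj_ofReal _), map_div₀, Complex.conj_conj, map_ofNat]
    rw [map_mul, map_mul, map_mul, hE, hG, e5, map_pow, map_mul, map_sub, map_sub, map_sub,
      Complex.conj_conj, e4, map_one]
  refine ⟨μ, fun j => (hμ0 j).2, hpos, hr, hA, fun j => (hμ0 j).1, hc0, hdg,
    fun p hp z hz => hPr p hp z (by rw [hae]; exact hz),
    fun p hp hpN z hz => hPg p hp hpN z (by rw [hae]; exact hz), hent.const_mul _, ?_, ?_, ?_⟩
  · have h1 := order_shift hκ (le_refl (0 : ℝ)) hord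
    obtain ⟨B, ρ, h2⟩ := h1
    refine ⟨B, ρ, fun s => ?_⟩
    have h3 := h2 s
    rw [Complex.ofReal_zero, add_zero] at h3
    exact h3
  · obtain ⟨ε, hε, hf⟩ := hfe
    refine ⟨ε, ?_, fun s => ?_⟩
    · rcases hε with rfl | rfl <;> simp
    · show (κ : ℂ) * Λ s = ε * conj ((κ : ℂ) * Λ (i + 1 - conj s))
      rw [map_mul, Complex.conj_ofReal]
      have e : conj (Λ (i + 1 - conj s)) = Λ (i + 1 - s) := by
        rw [← hreal (i + 1 - s)]
        congr 2
        simp only [map_sub, map_add, Complex.conj_natCast, map_one]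
      rw [e, hf s]
      ring
  · obtain ⟨σ, hσ⟩ := heq
    refine ⟨max σ (2 + (i : ℝ) / 2), fun s hs => ⟨E α (s - (i : ℂ) / 2), hprod s ?_, ?_⟩⟩
    · have := le_max_right σ (2 + (i : ℝ) / 2)
      linarith
    · have hs2 := le_max_right σ (2 + (i : ℝ) / 2)
      have hs1 := le_max_left σ (2 + (i : ℝ) / 2)
      show (κ : ℂ) * Λ s = _
      rw [hσ s (by linarith), htp s (by linarith)]
      have e1 : (A : ℂ) ^ (s / 2) = (A : ℂ) ^ ((s - (i : ℂ) / 2) / 2) * (A : ℂ) ^ ((i : ℂ) / 4) := by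
        rw [← Complex.cpow_add _ _ hAc]
        congr 1
        ring
      have e2 : (∏ j, Gammaℝ (s - (i : ℂ) / 2 + μ j)) =
          (∏ p ∈ Finset.range ((i + 1) / 2), Gammaℂ (s - p) ^ h p) *
          (if Even i then Gammaℝ (s - (i : ℂ) / 2) ^ a * Gammaℝ (s - (i : ℂ) / 2 + 1) ^ b else 1) := by
        rw [hμ2 (fun c : ℝ => Gammaℝ (s - (i : ℂ) / 2 + c)), rl_prod]
        simp only [Complex.ofReal_zero, Complex.ofReal_one, add_zero]
        congr 1
        refine Finset.prod_congr rfl fun p _ => ?_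
        rw [← Complex.Gammaℝ_mul_Gammaℝ_add_one]
        congr 3
        · push_cast
          ring
        · push_cast
          ring
      rw [e1, e2]
      linear_combination (((s - (i : ℂ) / 2) * (s - (i : ℂ) / 2 - 1)) ^ r *
        ((A : ℂ) ^ ((s - (i : ℂ) / 2) / 2) *
        ((∏ p ∈ Finset.range ((i + 1) / 2), Gammaℂ (s - p) ^ h p) *
          (if Even i then Gammaℝ (s - (i : ℂ) / 2) ^ a * Gammaℝ (s - (i : ℂ) / 2 + 1) ^ b
            else 1))) * E α (s - (i : ℂ) / 2)) * hκA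

end Pool.Agent.Zk1.WM
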