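import Pool.Agent.W672.UN.Coef

/-!
# The Dirichlet series of an Euler product of degree `m`
-/

set_option autoImplicit false

open Complex Filter Topology Set
open scoped ComplexConjugate

namespace Pool.Agent.Zk1.WM

open Pool.Agent.W355.UN

variable {m : ℕ}

/-- the traces of Frobenius: `c(p^k) = ∑_j α_{p,j}^k` -/
noncomputable def cF (α : Nat.Primes → Fin m → ℂ) (n : ℕ) : ℂ :=
  if h : IsPrimePow n then
    ∑ j, α ⟨n.minFac, Nat.minFac_prime h.ne_one⟩ j ^ (n.factorization n.minFac) else 0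

lemma cF_pow (α : Nat.Primes → Fin m → ℂ) (p : Nat.Primes) {k : ℕ} (hk : k ≠ 0) :
    cF α ((p : ℕ) ^ k) = ∑ j, α p j ^ k := by
  have h1 : IsPrimePow ((p : ℕ) ^ k) := p.2.isPrimePow.pow hk
  have h2 : ((p : ℕ) ^ k).minFac = p := p.2.pow_minFac hk
  unfold cF
  rw [dif_pos h1]
  have h3 : (⟨((p : ℕ) ^ k).minFac, Nat.minFac_prime h1.ne_one⟩ : Nat.Primes) = p :=
    Subtype.ext h2
  rw [h3, h2, p.2.factorization_pow, Finsupp.single_eq_same]

lemma cF_zero (α : Nat.Primes → Fin m → ℂ) {n : ℕ} (h : ¬ IsPrimePow n) : cF α n = 0 := by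
  unfold cF
  rw [dif_neg h]

lemma cF_ind (α : Nat.Primes → Fin m → ℂ) {P : ℕ → ℂ → Prop} (h0 : ∀ n, ¬ IsPrimePow n → P n 0)
    (h1 : ∀ (p : Nat.Primes) (k : ℕ), k ≠ 0 → P ((p : ℕ) ^ k) (∑ j, α p j ^ k)) (n : ℕ) :
    P n (cF α n) := by
  by_cases h : IsPrimePow n
  · obtain ⟨p, k, hp, hk, rfl⟩ := (isPrimePow_nat_iff n).1 h
    have := h1 ⟨p, hp⟩ k hk.ne'
    rw [← cF_pow α ⟨p, hp⟩ hk.ne'] at this
    exact this
  · rw [cF_zero α h]
    exact h0 n h

/-- the Dirichlet series is determined by its logarithmic derivative -/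
theorem exists_conv (c : ℕ → ℂ) : ∃ b : ℕ → ℂ, b 1 = 1 ∧ Conv b c := by
  obtain ⟨b, hb⟩ : ∃ b : ℕ → ℂ, b = WellFounded.fix (C := fun _ => ℂ) Nat.lt_wfRel.wf fun n ih =>
    if n ≤ 1 then 1 else (∑ d ∈ n.divisors, ((ArithmeticFunction.vonMangoldt d : ℝ) : ℂ) * c d *
      (if h : n / d < n then ih (n / d) h else 0)) / ((Real.log n : ℝ) : ℂ) := ⟨_, rfl⟩
  have hn : ∀ n : ℕ, b n = if n ≤ 1 then 1 else (∑ d ∈ n.divisors,
      ((ArithmeticFunction.vonMangoldt d : ℝ) : ℂ) * c d *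
      (if n / d < n then b (n / d) else 0)) / ((Real.log n : ℝ) : ℂ) := by
    intro n
    conv_lhs => rw [hb, WellFounded.fix_eq]
    rw [hb]
    congr 1
  refine ⟨b, by rw [hn]; simp, fun n hn0 => ?_⟩
  rcases Nat.lt_or_ge 1 n with h1 | h1
  · have hlog : ((Real.log n : ℝ) : ℂ) ≠ 0 := by
      have : 0 < Real.log n := Real.log_pos (by exact_mod_cast h1)
      exact_mod_cast this.ne'
    rw [hn n, if_neg (by omega), div_mul_cancel₀ _ hlog]
    refine Finset.sum_congr rfl fun d hd => ?_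
    have hd0 := Nat.pos_of_mem_divisors hd
    by_cases hd1 : d = 1
    · subst hd1
      simp
    · rw [if_pos (Nat.div_lt_self (by omega) (by omega))]
  · have : n = 1 := by omega
    subst this
    simp

lemma cF_le {α : Nat.Primes → Fin m → ℂ} (hα : ∀ p j, ‖α p j‖ ≤ 1) (n : ℕ) : ‖cF α n‖ ≤ m := by
  refine cF_ind α (P := fun _ z => ‖z‖ ≤ (m : ℝ)) (fun n _ => by rw [norm_zero]; positivity)
    (fun p k _ => ?_) n
  refine (norm_sum_le _ _).trans ?_
  have : ∀ j ∈ Finset.univ, ‖α p j ^ k‖ ≤ 1 := fun j _ => by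
    rw [norm_pow]
    exact pow_le_one₀ (norm_nonneg _) (hα p j)
  refine (Finset.sum_le_sum this).trans (le_of_eq ?_)
  rw [Finset.sum_const, Finset.card_univ, Fintype.card_fin, nsmul_eq_mul, mul_one]

/-- the coefficients of the logarithm -/
noncomputable def gF (α : Nat.Primes → Fin m → ℂ) (n : ℕ) : ℂ :=
  ((ArithmeticFunction.vonMangoldt n / Real.log n : ℝ) : ℂ) * cF α n

lemma gF_le {α : Nat.Primes → Fin m → ℂ} (hα : ∀ p j, ‖α p j‖ ≤ 1) (n : ℕ) : ‖gF α n‖ ≤ m := by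
  unfold gF
  rw [norm_mul, Complex.norm_real]
  have h1 : ‖ArithmeticFunction.vonMangoldt n / Real.log n‖ ≤ 1 := by
    rw [Real.norm_of_nonneg (div_nonneg ArithmeticFunction.vonMangoldt_nonneg
      (Real.log_natCast_nonneg n))]
    exact div_le_one_of_le₀ ArithmeticFunction.vonMangoldt_le_log (Real.log_natCast_nonneg n)
  calc ‖ArithmeticFunction.vonMangoldt n / Real.log n‖ * ‖cF α n‖ ≤ 1 * m :=
        mul_le_mul h1 (cF_le hα n) (norm_nonneg _) zero_le_one
    _ = m := one_mul _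

lemma logMul_gF (α : Nat.Primes → Fin m → ℂ) : LSeries.logMul (gF α) =
    fun n => ((ArithmeticFunction.vonMangoldt n : ℝ) : ℂ) * cF α n := by
  funext n
  unfold LSeries.logMul gF
  rw [← mul_assoc]
  congr 1
  rcases Nat.lt_or_ge 1 n with h1 | h1
  · have h2 : Real.log n ≠ 0 := (Real.log_pos (by exact_mod_cast h1)).ne'
    rw [← Complex.natCast_log, ← Complex.ofReal_mul, mul_div_cancel₀ _ h2]
  · have h2 : ArithmeticFunction.vonMangoldt n = 0 := by
      interval_cases n <;> simp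
    rw [h2]
    simp

lemma gF_summable {α : Nat.Primes → Fin m → ℂ} (hα : ∀ p j, ‖α p j‖ ≤ 1) {s : ℂ} (hs : 1 < s.re) :
    LSeriesSummable (gF α) s :=
  LSeriesSummable_of_bounded_of_one_lt_re (fun n _ => gF_le hα n) hs

lemma gF_absc {α : Nat.Primes → Fin m → ℂ} (hα : ∀ p j, ‖α p j‖ ≤ 1) :
    LSeries.abscissaOfAbsConv (gF α) ≤ 1 := by
  refine LSeries.abscissaOfAbsConv_le_of_forall_lt_LSeriesSummable' fun y hy => ?_
  exact gF_summable hα (by rw [Complex.ofReal_re]; exact_mod_cast hy)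

lemma norm_lt_one {α : Nat.Primes → Fin m → ℂ} (hα : ∀ p j, ‖α p j‖ ≤ 1) {s : ℂ} (hs : 1 < s.re)
    (p : Nat.Primes) (j : Fin m) : ‖α p j * ((p : ℕ) : ℂ) ^ (-s)‖ < 1 := by
  rw [norm_mul, Complex.norm_natCast_cpow_of_pos p.2.pos, neg_re]
  have h1 : (1 : ℝ) < ((p : ℕ) : ℝ) := by exact_mod_cast p.2.one_lt
  have h2 : ((p : ℕ) : ℝ) ^ (-s.re) < 1 := Real.rpow_lt_one_of_one_lt_of_neg h1 (by linarith)
  calc ‖α p j‖ * ((p : ℕ) : ℝ) ^ (-s.re) ≤ 1 * ((p : ℕ) : ℝ) ^ (-s.re) := by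
        gcongr
        exact hα p j
    _ < 1 := by rw [one_mul]; exact h2

/-- the logarithm of the Euler product -/
theorem log_sum {α : Nat.Primes → Fin m → ℂ} (hα : ∀ p j, ‖α p j‖ ≤ 1) {s : ℂ} (hs : 1 < s.re) :
    HasSum (fun p : Nat.Primes => ∑ j, -log (1 - α p j * ((p : ℕ) : ℂ) ^ (-s)))
      (LSeries (gF α) s) := by
  have h1 : HasSum (LSeries.term (gF α) s) (LSeries (gF α) s) := (gF_summable hα hs).hasSum
  have hsupp : Function.support (LSeries.term (gF α) s) ⊆ {n : ℕ | IsPrimePow n} := by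
    intro n hn
    by_contra h
    apply hn
    have : gF α n = 0 := by
      unfold gF
      rw [cF_zero α h, mul_zero]
    rcases eq_or_ne n 0 with rfl | h0
    · simp
    · rw [LSeries.term_of_ne_zero h0, this, zero_div]
  have h2 : HasSum (LSeries.term (gF α) s ∘ ((↑) : {n : ℕ | IsPrimePow n} → ℕ)) (LSeries (gF α) s) :=
    (hasSum_subtype_iff_of_support_subset hsupp).2 h1
  have h3 : HasSum ((LSeries.term (gF α) s ∘ ((↑) : {n : ℕ | IsPrimePow n} → ℕ)) ∘
      Nat.Primes.prodNatEquiv) (LSeries (gF α) s) := (Equiv.hasSum_iff Nat.Primes.prodNatEquiv).2 h2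
  refine h3.prod_fiberwise fun p => ?_
  have h4 : ∀ k : ℕ, ((LSeries.term (gF α) s ∘ ((↑) : {n : ℕ | IsPrimePow n} → ℕ)) ∘
      Nat.Primes.prodNatEquiv) (p, k) = ∑ j, (α p j * ((p : ℕ) : ℂ) ^ (-s)) ^ (k + 1) / (k + 1) := by
    intro k
    have hp0 : ((p : ℕ) : ℂ) ≠ 0 := by exact_mod_cast p.2.ne_zero
    have hpk : (p : ℕ) ^ (k + 1) ≠ 0 := pow_ne_zero _ p.2.ne_zero
    have hlp : Real.log p ≠ 0 := (Real.log_pos (by exact_mod_cast p.2.one_lt)).ne'
    show LSeries.term (gF α) s ((Nat.Primes.prodNatEquiv (p, k) : {n : ℕ // IsPrimePow n}) : ℕ) = _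
    rw [Nat.Primes.coe_prodNatEquiv_apply, LSeries.term_of_ne_zero hpk]
    unfold gF
    rw [cF_pow α p (Nat.succ_ne_zero k), ArithmeticFunction.vonMangoldt_apply_pow
      (Nat.succ_ne_zero k), ArithmeticFunction.vonMangoldt_apply_prime p.2, Nat.cast_pow,
      Real.log_pow]
    have e1 : (((Real.log (p : ℕ) / (((k + 1 : ℕ) : ℝ) * Real.log (p : ℕ)) : ℝ)) : ℂ) =
        1 / ((k : ℂ) + 1) := by
      rw [show Real.log (p : ℕ) / (((k + 1 : ℕ) : ℝ) * Real.log (p : ℕ)) = 1 / ((k : ℝ) + 1) by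
        push_cast
        field_simp]
      push_cast
      rfl
    have e2 : ((((p : ℕ) ^ (k + 1) : ℕ) : ℂ) ^ s) = ((((p : ℕ) : ℂ) ^ (-s)) ^ (k + 1))⁻¹ := by
      rw [Nat.cast_pow, Complex.cpow_neg, inv_pow, inv_inv, ← Complex.natCast_cpow_natCast_mul,
        mul_comm, Complex.cpow_mul_nat]
    rw [e1, e2, div_inv_eq_mul, Finset.mul_sum, Finset.sum_mul]
    refine Finset.sum_congr rfl fun j _ => ?_
    rw [mul_pow, Nat.succ_eq_add_one]
    ring
  simp only [h4]
  refine hasSum_sum fun j _ => ?_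
  have h5 := Complex.hasSum_taylorSeries_neg_log (norm_lt_one hα hs p j)
  have h6 := (hasSum_nat_add_iff' 1).2 h5
  simp only [Finset.range_one, Finset.sum_singleton, pow_zero, Nat.cast_zero, div_zero,
    sub_zero] at h6
  refine h6.congr_fun ?_ |> fun h => h
  intro k
  push_cast
  rfl

lemma one_sub_ne {z : ℂ} (hz : ‖z‖ < 1) : 1 - z ≠ 0 := by
  intro h
  rw [sub_eq_zero] at h
  rw [← h, norm_one] at hz
  exact lt_irrefl _ hz

theorem exp_prod {α : Nat.Primes → Fin m → ℂ} (hα : ∀ p j, ‖α p j‖ ≤ 1) {s : ℂ} (hs : 1 < s.re) :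
    HasProd (fun p : Nat.Primes => ∏ j, (1 - α p j * ((p : ℕ) : ℂ) ^ (-s))⁻¹)
      (cexp (LSeries (gF α) s)) := by
  refine (log_sum hα hs).cexp.congr_fun ?_ |> fun h => h
  intro p
  simp only [Function.comp_apply]
  rw [Complex.exp_sum]
  refine Finset.prod_congr rfl fun j _ => ?_
  rw [Complex.exp_neg, Complex.exp_log (one_sub_ne (norm_lt_one hα hs p j))]

theorem lser_eq {α : Nat.Primes → Fin m → ℂ} (hα : ∀ p j, ‖α p j‖ ≤ 1) {b : ℕ → ℂ}
    (hb1 : b 1 = 1) (hconv : Conv b (cF α)) {s : ℂ} (hs : 1 < s.re) :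
    LSeries b s = cexp (LSeries (gF α) s) := by
  have hco := fun z (hz : 1 < (z : ℂ).re) =>
    Pool.Agent.W672.UN.coef m b (cF α) hb1 (cF_le hα) hconv z hz
  have hab : LSeries.abscissaOfAbsConv b ≤ 1 := by
    refine LSeries.abscissaOfAbsConv_le_of_forall_lt_LSeriesSummable' fun y hy => ?_
    exact (hco y (by rw [Complex.ofReal_re]; exact_mod_cast hy)).1
  have hag := gF_absc hα
  have hlt : ∀ z : ℂ, 1 < z.re → (1 : EReal) < z.re := fun z hz => by exact_mod_cast hz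
  have hopen : IsOpen {z : ℂ | 1 < z.re} := isOpen_lt continuous_const Complex.continuous_re
  have hder : ∀ z : ℂ, 1 < z.re → HasDerivAt (fun z => LSeries b z * cexp (-LSeries (gF α) z)) 0 z := by
    intro z hz
    have h1 := LSeries_hasDerivAt (lt_of_le_of_lt hab (hlt z hz))
    have h2 := LSeries_hasDerivAt (lt_of_le_of_lt hag (hlt z hz))
    have h3 := h1.mul (h2.neg.cexp)
    rw [logMul_gF] at h3
    have h4 : -LSeries (LSeries.logMul b) z = LSeries b z *
        -LSeries (fun n => ((ArithmeticFunction.vonMangoldt n : ℝ) : ℂ) * cF α n) z := by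
      have h5 := (hco z hz).2.2
      rw [logDeriv_apply, h1.deriv, div_eq_iff (hco z hz).2.1] at h5
      rw [h5]
      ring
    rw [h4] at h3
    have h5 := h3.congr_deriv (g' := 0) (by
      simp only [Pi.neg_apply]
      ring)
    exact h5
  have hconst : ∀ z w : ℂ, 1 < z.re → 1 < w.re → LSeries b z * cexp (-LSeries (gF α) z) =
      LSeries b w * cexp (-LSeries (gF α) w) := by
    intro z w hz hw
    exact hopen.is_const_of_deriv_eq_zero (convex_halfSpace_re_gt 1).isPreconnected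
      (f := fun z => LSeries b z * cexp (-LSeries (gF α) z))
      (fun z hz => (hder z hz).differentiableAt.differentiableWithinAt)
      (fun z hz => (hder z hz).deriv) hz hw
  have hlim : Tendsto (fun x : ℝ => LSeries b x * cexp (-LSeries (gF α) x)) atTop (𝓝 1) := by
    have h1 := LSeries.tendsto_atTop (f := b) (lt_of_le_of_lt hab (by exact_mod_cast EReal.coe_lt_top 1))
    have h2 := LSeries.tendsto_atTop (f := gF α)
      (lt_of_le_of_lt hag (by exact_mod_cast EReal.coe_lt_top 1))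
    have h3 : gF α 1 = 0 := by
      unfold gF
      rw [ArithmeticFunction.vonMangoldt_apply_one]
      simp
    rw [h3] at h2
    rw [hb1] at h1
    have h4 := h1.mul ((Complex.continuous_exp.tendsto _).comp h2.neg)
    rw [neg_zero, Complex.exp_zero, mul_one] at h4
    exact h4
  have hfin : LSeries b s * cexp (-LSeries (gF α) s) = 1 := by
    refine tendsto_nhds_unique (tendsto_const_nhds.congr' ?_) hlim
    filter_upwards [eventually_gt_atTop (1 : ℝ)] with x hx
    exact hconst s x hs (by rw [Complex.ofReal_re]; exact hx)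
  rw [Complex.exp_neg, mul_inv_eq_one₀ (Complex.exp_ne_zero _)] at hfin
  exact hfin

end Pool.Agent.Zk1.WM
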