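import Pool.Agent.Zk1.WM.Eul

/-!
# The sums of the traces of Frobenius over the prime powers
-/

set_option autoImplicit false

open Finset

namespace Pool.Agent.Zk1.WM

open ArithmeticFunction (vonMangoldt)

variable {m : ℕ}

/-- the weights `log p` at the powers of `p` -/
noncomputable def wt (p n : ℕ) : ℝ := if IsPrimePow n ∧ n.minFac = p then Real.log p else 0

lemma wt_nonneg (p n : ℕ) : 0 ≤ wt p n := by
  unfold wt
  split_ifs
  · exact Real.log_natCast_nonneg p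
  · exact le_rfl

lemma wt_sum {p : ℕ} (hp : p.Prime) {N : ℕ} (hN : N ≠ 0) :
    ∑ n ∈ Icc 1 N, wt p n ≤ Real.log N := by
  have h1 : ∑ n ∈ Icc 1 N, wt p n =
      ((Icc 1 N).filter fun n => IsPrimePow n ∧ n.minFac = p).card * Real.log p := by
    unfold wt
    rw [← Finset.sum_filter, Finset.sum_const, nsmul_eq_mul]
  have h2 : ((Icc 1 N).filter fun n => IsPrimePow n ∧ n.minFac = p) ⊆
      (Icc 1 (Nat.log p N)).image fun k => p ^ k := by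
    intro n hn
    rw [Finset.mem_filter, Finset.mem_Icc] at hn
    obtain ⟨⟨-, h0⟩, h2, h3⟩ := hn
    obtain ⟨q, k, hq, hk, rfl⟩ := (isPrimePow_nat_iff n).1 h2
    rw [hq.pow_minFac hk.ne'] at h3
    subst h3
    rw [Finset.mem_image]
    refine ⟨k, Finset.mem_Icc.2 ⟨hk, ?_⟩, rfl⟩
    exact Nat.le_log_of_pow_le hq.one_lt h0
  have h3 := (Finset.card_le_card h2).trans Finset.card_image_le
  rw [Nat.card_Icc, Nat.add_sub_cancel] at h3
  rw [h1]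
  have h4 : (((Icc 1 N).filter fun n => IsPrimePow n ∧ n.minFac = p).card : ℝ) ≤ Nat.log p N := by
    exact_mod_cast h3
  have h5 : 0 ≤ Real.log p := Real.log_natCast_nonneg p
  have h6 : ((p ^ Nat.log p N : ℕ) : ℝ) ≤ N := by exact_mod_cast Nat.pow_log_le_self p hN
  have h7 : Real.log ((p ^ Nat.log p N : ℕ) : ℝ) ≤ Real.log N :=
    Real.log_le_log (by exact_mod_cast pow_pos hp.pos _) h6
  rw [Nat.cast_pow, Real.log_pow] at h7
  calc _ ≤ (Nat.log p N : ℝ) * Real.log p := mul_le_mul_of_nonneg_right h4 h5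
    _ ≤ _ := h7

/-- the bound for the traces: `S` contains the primes with roots larger than one -/
theorem cF_bd {α : Nat.Primes → Fin m → ℂ} {S : Finset ℕ}
    (h1 : ∀ p : Nat.Primes, (p : ℕ) ∉ S → ∀ j, ‖α p j‖ ≤ 1)
    (h2 : ∀ p j, ‖α p j‖ ≤ ((p : ℕ) : ℝ) ^ (1 / 2 : ℝ)) (n : ℕ) :
    vonMangoldt n * ‖cF α n‖ ≤ m * vonMangoldt n + ∑ p ∈ S, m * (Real.sqrt n * wt p n) := by
  have hnn : 0 ≤ ∑ p ∈ S, (m : ℝ) * (Real.sqrt n * wt p n) :=
    Finset.sum_nonneg fun p _ => mul_nonneg (Nat.cast_nonneg _)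
      (mul_nonneg (Real.sqrt_nonneg _) (wt_nonneg _ _))
  by_cases h : IsPrimePow n
  · obtain ⟨p, k, hp, hk, rfl⟩ := (isPrimePow_nat_iff n).1 h
    have e : cF α (p ^ k) = ∑ j, α ⟨p, hp⟩ j ^ k := cF_pow α ⟨p, hp⟩ hk.ne'
    have hL : vonMangoldt (p ^ k) = Real.log p := by
      rw [ArithmeticFunction.vonMangoldt_apply_pow hk.ne',
        ArithmeticFunction.vonMangoldt_apply_prime hp]
    have hlog : 0 ≤ Real.log p := Real.log_natCast_nonneg p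
    have hm : (0 : ℝ) ≤ m := Nat.cast_nonneg _
    rw [e, hL]
    by_cases hS : p ∈ S
    · have hc : ‖∑ j, α ⟨p, hp⟩ j ^ k‖ ≤ m * Real.sqrt ((p ^ k : ℕ) : ℝ) := by
        refine (norm_sum_le _ _).trans ?_
        have hp0 : (0 : ℝ) ≤ (p : ℝ) := Nat.cast_nonneg _
        have : ∀ j ∈ (Finset.univ : Finset (Fin m)), ‖α ⟨p, hp⟩ j ^ k‖ ≤ Real.sqrt ((p ^ k : ℕ) : ℝ) := by
          intro j _
          rw [norm_pow, Nat.cast_pow, Real.sqrt_eq_rpow, ← Real.rpow_natCast, ← Real.rpow_natCast,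
            ← Real.rpow_mul hp0]
          have h3 := h2 ⟨p, hp⟩ j
          calc ‖α ⟨p, hp⟩ j‖ ^ (k : ℝ) ≤ ((p : ℝ) ^ (1 / 2 : ℝ)) ^ (k : ℝ) :=
                Real.rpow_le_rpow (norm_nonneg _) h3 (Nat.cast_nonneg _)
            _ = (p : ℝ) ^ ((k : ℝ) * (1 / 2)) := by
                rw [← Real.rpow_mul hp0]
                congr 1
                ring
        refine (Finset.sum_le_sum this).trans (le_of_eq ?_)
        rw [Finset.sum_const, Finset.card_univ, Fintype.card_fin, nsmul_eq_mul]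
      have hw : wt p (p ^ k) = Real.log p := by
        unfold wt
        rw [if_pos ⟨h, hp.pow_minFac hk.ne'⟩]
      have h3 : (m : ℝ) * (Real.sqrt ((p ^ k : ℕ) : ℝ) * wt p (p ^ k)) ≤
          ∑ q ∈ S, (m : ℝ) * (Real.sqrt ((p ^ k : ℕ) : ℝ) * wt q (p ^ k)) :=
        Finset.single_le_sum (f := fun q => (m : ℝ) * (Real.sqrt ((p ^ k : ℕ) : ℝ) * wt q (p ^ k)))
          (fun q _ => mul_nonneg (Nat.cast_nonneg _)
            (mul_nonneg (Real.sqrt_nonneg _) (wt_nonneg _ _))) hS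
      rw [hw] at h3
      have h4 := mul_le_mul_of_nonneg_left hc hlog
      have h5 : 0 ≤ (m : ℝ) * Real.log p := mul_nonneg hm hlog
      nlinarith
    · have hc : ‖∑ j, α ⟨p, hp⟩ j ^ k‖ ≤ m := by
        refine (norm_sum_le _ _).trans ?_
        have : ∀ j ∈ (Finset.univ : Finset (Fin m)), ‖α ⟨p, hp⟩ j ^ k‖ ≤ 1 := by
          intro j _
          rw [norm_pow]
          exact pow_le_one₀ (norm_nonneg _) (h1 ⟨p, hp⟩ hS j)
        refine (Finset.sum_le_sum this).trans (le_of_eq ?_)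
        rw [Finset.sum_const, Finset.card_univ, Fintype.card_fin, nsmul_eq_mul, mul_one]
      have h4 := mul_le_mul_of_nonneg_left hc hlog
      nlinarith
  · rw [cF_zero α h, norm_zero, mul_zero]
    exact add_nonneg (mul_nonneg (Nat.cast_nonneg _)
      ArithmeticFunction.vonMangoldt_nonneg) hnn

lemma yng {K y : ℝ} (hK : 0 ≤ K) (hy : 1 ≤ y) : K * (Real.sqrt y * Real.log y) ≤ y + 64 * K ^ 4 := by
  obtain ⟨x, hx, rfl⟩ : ∃ x : ℝ, 0 < x ∧ x ^ 4 = y := by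
    refine ⟨y ^ (1 / 4 : ℝ), by positivity, ?_⟩
    rw [← Real.rpow_natCast, ← Real.rpow_mul (by linarith)]
    norm_num
  have h1 : Real.sqrt (x ^ 4) = x ^ 2 := by
    rw [show x ^ 4 = (x ^ 2) ^ 2 by ring, Real.sqrt_sq (by positivity)]
  have h2 : Real.log (x ^ 4) ≤ 4 * x := by
    rw [Real.log_pow]
    have := Real.log_le_sub_one_of_pos hx
    push_cast
    linarith
  rw [h1]
  have h3 : K * (x ^ 2 * Real.log (x ^ 4)) ≤ 4 * K * x ^ 3 := by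
    have : x ^ 2 * Real.log (x ^ 4) ≤ x ^ 2 * (4 * x) := by gcongr
    nlinarith
  refine h3.trans ?_
  -- `4 K x^3 ≤ x^4 + 64 K^4`
  by_cases h : 4 * K ≤ x
  · have h4 : 4 * K * x ^ 3 ≤ x * x ^ 3 := by gcongr
    have : 0 ≤ 64 * K ^ 4 := by positivity
    nlinarith
  · push Not at h
    nlinarith [sq_nonneg (x ^ 2 - 2 * K * x), sq_nonneg (x ^ 2 - 8 * K ^ 2), sq_nonneg (x - 2 * K),
      mul_nonneg hK (pow_nonneg hx.le 3), sq_nonneg (x * (x - 4 * K)), sq_nonneg (x ^ 2 - 4 * K * x),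
      sq_nonneg (x ^ 2 - 2 * K * x - 4 * K ^ 2)]

lemma yng' {K y δ : ℝ} (hK : 0 ≤ K) (hy : 1 ≤ y) (hδ : 0 < δ) :
    K * (Real.sqrt y * Real.log y) ≤ δ * y + 64 * K ^ 4 / δ ^ 3 := by
  have h1 := yng (K := K / δ) (div_nonneg hK hδ.le) hy
  have h2 := mul_le_mul_of_nonneg_left h1 hδ.le
  have e1 : δ * (K / δ * (Real.sqrt y * Real.log y)) = K * (Real.sqrt y * Real.log y) := by
    field_simp
  have e2 : δ * (y + 64 * (K / δ) ^ 4) = δ * y + 64 * K ^ 4 / δ ^ 3 := by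
    field_simp
  rw [e1, e2] at h2
  exact h2

/-- the sum of the traces, few primes with large roots -/
theorem cF_sum {α : Nat.Primes → Fin m → ℂ} {S : Finset ℕ} (hS : ∀ p ∈ S, p.Prime)
    (h1 : ∀ p : Nat.Primes, (p : ℕ) ∉ S → ∀ j, ‖α p j‖ ≤ 1)
    (h2 : ∀ p j, ‖α p j‖ ≤ ((p : ℕ) : ℝ) ^ (1 / 2 : ℝ)) {κ e : ℝ}
    (hψ : ∀ y : ℝ, 1 ≤ y → ∑ n ∈ Icc 1 ⌊y⌋₊, vonMangoldt n ≤ κ * y + e) {δ : ℝ} (hδ : 0 < δ)
    (y : ℝ) (hy : 1 ≤ y) : ∑ n ∈ Icc 1 ⌊y⌋₊, vonMangoldt n * ‖cF α n‖ ≤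
      (m * κ + δ) * y + (m * e + 64 * (m * S.card : ℝ) ^ 4 / δ ^ 3) := by
  have hm : (0 : ℝ) ≤ m := Nat.cast_nonneg _
  have hy0 : ⌊y⌋₊ ≠ 0 := by
    have := Nat.floor_pos.2 hy
    omega
  have hfl : ((⌊y⌋₊ : ℕ) : ℝ) ≤ y := Nat.floor_le (by linarith)
  have h3 : ∑ n ∈ Icc 1 ⌊y⌋₊, vonMangoldt n * ‖cF α n‖ ≤
      ∑ n ∈ Icc 1 ⌊y⌋₊, (m * vonMangoldt n + ∑ p ∈ S, m * (Real.sqrt y * wt p n)) := by
    refine Finset.sum_le_sum fun n hn => (cF_bd h1 h2 n).trans ?_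
    rw [Finset.mem_Icc] at hn
    have hny : (n : ℝ) ≤ y := le_trans (by exact_mod_cast hn.2) hfl
    gcongr with p hp
    exact wt_nonneg _ _
  rw [Finset.sum_add_distrib, ← Finset.mul_sum, Finset.sum_comm] at h3
  have h4 : ∀ p ∈ S, ∑ n ∈ Icc 1 ⌊y⌋₊, (m : ℝ) * (Real.sqrt y * wt p n) ≤
      m * (Real.sqrt y * Real.log y) := by
    intro p hp
    rw [← Finset.mul_sum, ← Finset.mul_sum]
    have h5 := wt_sum (hS p hp) hy0
    have h6 : Real.log ((⌊y⌋₊ : ℕ) : ℝ) ≤ Real.log y :=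
      Real.log_le_log (by exact_mod_cast Nat.pos_of_ne_zero hy0) hfl
    gcongr
    linarith
  have h5 := Finset.sum_le_sum h4
  rw [Finset.sum_const, nsmul_eq_mul] at h5
  have h6 := yng' (K := m * S.card) (by positivity) hy hδ
  have h7 := mul_le_mul_of_nonneg_left (hψ y hy) hm
  linarith

/-- the sum of the traces, all roots at most one -/
theorem cF_sum' {α : Nat.Primes → Fin m → ℂ} (h1 : ∀ p j, ‖α p j‖ ≤ 1) {κ e : ℝ}
    (hψ : ∀ y : ℝ, 1 ≤ y → ∑ n ∈ Icc 1 ⌊y⌋₊, vonMangoldt n ≤ κ * y + e) (y : ℝ) (hy : 1 ≤ y) :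
    ∑ n ∈ Icc 1 ⌊y⌋₊, vonMangoldt n * ‖cF α n‖ ≤ (m * κ) * y + m * e := by
  have h3 : ∑ n ∈ Icc 1 ⌊y⌋₊, vonMangoldt n * ‖cF α n‖ ≤
      ∑ n ∈ Icc 1 ⌊y⌋₊, vonMangoldt n * m := by
    refine Finset.sum_le_sum fun n _ => ?_
    exact mul_le_mul_of_nonneg_left (cF_le h1 n) ArithmeticFunction.vonMangoldt_nonneg
  rw [← Finset.sum_mul] at h3
  have h7 := mul_le_mul_of_nonneg_left (hψ y hy) (Nat.cast_nonneg m)
  linarith

end Pool.Agent.Zk1.WM
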